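import Pool.Agent.Results.MP_5a799b_co.LogBounds

/-!
# Three disjoint equal-sum subsets: extensions, integers, mixed radix
-/

set_option autoImplicit false

open Finset

namespace Pool.Agent.Lib.RHO6

open Pool.Agent.Results.MP_5a799b_co.LogBounds

/-- sum over the image of a set under a map injective on a larger set -/
theorem sum_image_hom {G K : Type} [AddCommGroup G] [AddCommGroup K] [DecidableEq K]
    (φ : G →+ K) {T A : Finset G} (hinj : Set.InjOn φ (T : Set G)) (hA : A ⊆ T) :
    ∑ y ∈ A.image φ, y = φ (∑ x ∈ A, x) := by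
  rw [Finset.sum_image (fun x hx y hy h => hinj (hA hx) (hA hy) h), map_sum]

theorem disjoint_image {G K : Type} [DecidableEq K] (φ : G → K) {T A B : Finset G}
    (hinj : Set.InjOn φ (T : Set G)) (hA : A ⊆ T) (hB : B ⊆ T) (h : Disjoint A B) :
    Disjoint (A.image φ) (B.image φ) := by
  rw [Finset.disjoint_left]
  intro y h1 h2
  rw [Finset.mem_image] at h1 h2
  obtain ⟨a, ha, rfl⟩ := h1
  obtain ⟨b, hb, hab⟩ := h2
  have := hinj (hB hb) (hA ha) hab
  subst this
  exact Finset.disjoint_left.1 h ha hb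

/-- EXTENSIONS. `U` in the kernel, `L` mapped injectively onto a set without triple. -/
theorem ext_no_triple {G K : Type} [AddCommGroup G] [AddCommGroup K] [DecidableEq G]
    [DecidableEq K] (φ : G →+ K) {U L : Finset G} (hU0 : ∀ u ∈ U, φ u = 0)
    (hinj : Set.InjOn φ (L : Set G)) (hL : ¬ HasTriple (L.image φ)) (hU : ¬ HasTriple U) :
    ¬ HasTriple (U ∪ L) := by
  rintro ⟨A, B, C, hA, hB, hC, hAB, hAC, hBC, hne, h1, h2⟩
  have key : ∀ X : Finset G, X ⊆ U ∪ L →
      ∑ y ∈ (X ∩ L).image φ, y = φ (∑ x ∈ X, x) := by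
    intro X hX
    rw [sum_image_hom φ hinj Finset.inter_subset_right, map_sum, map_sum]
    have h3 : ∑ x ∈ X, φ x = ∑ x ∈ X ∩ L, φ x + ∑ x ∈ X \ L, φ x := by
      rw [← Finset.sum_union]
      · congr 1
        ext x
        rw [Finset.mem_union, Finset.mem_inter, Finset.mem_sdiff]
        tauto
      · rw [Finset.disjoint_left]
        intro x h4 h5
        exact (Finset.mem_sdiff.1 h5).2 (Finset.mem_inter.1 h4).2
    rw [h3]
    have h4 : ∑ x ∈ X \ L, φ x = 0 := by
      apply Finset.sum_eq_zero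
      intro x hx
      rw [Finset.mem_sdiff] at hx
      rcases Finset.mem_union.1 (hX hx.1) with h5 | h5
      · exact hU0 x h5
      · exact absurd h5 hx.2
    rw [h4, add_zero]
  have hdis : ∀ X Y : Finset G, Disjoint X Y →
      Disjoint ((X ∩ L).image φ) ((Y ∩ L).image φ) := by
    intro X Y hXY
    exact disjoint_image φ hinj Finset.inter_subset_right Finset.inter_subset_right
      (Finset.disjoint_of_subset_left Finset.inter_subset_left
        (Finset.disjoint_of_subset_right Finset.inter_subset_left hXY))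
  have hsub : ∀ X : Finset G, (X ∩ L).image φ ⊆ L.image φ :=
    fun X => Finset.image_subset_image Finset.inter_subset_right
  have hempty : ¬ ((A ∩ L).Nonempty ∨ (B ∩ L).Nonempty ∨ (C ∩ L).Nonempty) := by
    intro h
    apply hL
    refine ⟨(A ∩ L).image φ, (B ∩ L).image φ, (C ∩ L).image φ, hsub A, hsub B, hsub C,
      hdis A B hAB, hdis A C hAC, hdis B C hBC, ?_, ?_, ?_⟩
    · rcases h with h | h | h
      · exact Or.inl (h.image _)
      · exact Or.inr (Or.inl (h.image _))
      · exact Or.inr (Or.inr (h.image _))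
    · rw [key A hA, key B hB, h1]
    · rw [key B hB, key C hC, h2]
  have hsubU : ∀ X : Finset G, X ⊆ U ∪ L → ¬ (X ∩ L).Nonempty → X ⊆ U := by
    intro X hX hXL x hx
    rcases Finset.mem_union.1 (hX hx) with h | h
    · exact h
    · exact absurd ⟨x, Finset.mem_inter.2 ⟨hx, h⟩⟩ hXL
  apply hU
  refine ⟨A, B, C, hsubU A hA (fun h => hempty (Or.inl h)),
    hsubU B hB (fun h => hempty (Or.inr (Or.inl h))),
    hsubU C hC (fun h => hempty (Or.inr (Or.inr h))), hAB, hAC, hBC, hne, h1, h2⟩

theorem zero_notMem {G : Type} [AddCommGroup G] {S : Finset G} (hS : ¬ HasTriple S) :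
    (0 : G) ∉ S := by
  intro h
  apply hS
  refine ⟨{0}, ∅, ∅, by simpa using h, Finset.empty_subset _, Finset.empty_subset _,
    Finset.disjoint_empty_right _, Finset.disjoint_empty_right _, Finset.disjoint_empty_right _,
    Or.inl ⟨0, Finset.mem_singleton_self _⟩, ?_, ?_⟩
  · rw [Finset.sum_singleton, Finset.sum_empty]
  · rfl

theorem empty_no_triple {G : Type} [AddCommGroup G] : ¬ HasTriple (∅ : Finset G) := by
  rintro ⟨A, B, C, hA, hB, hC, _, _, _, hne, _, _⟩
  rw [Finset.subset_empty] at hA hB hC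
  subst hA hB hC
  rcases hne with h | h | h <;> exact Finset.not_nonempty_empty h

/-- images under injective homomorphisms -/
theorem map_no_triple {G K : Type} [AddCommGroup G] [AddCommGroup K] [DecidableEq K]
    (ψ : G →+ K) (hψ : Function.Injective ψ) {S : Finset G} (hS : ¬ HasTriple S) :
    ¬ HasTriple (S.image ψ) := by
  classical
  rintro ⟨A, B, C, hA, hB, hC, hAB, hAC, hBC, hne, h1, h2⟩
  have hpre : ∀ X : Finset K, X ⊆ S.image ψ →
      ∃ X' : Finset G, X' ⊆ S ∧ X'.image ψ = X := by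
    intro X hX
    refine ⟨S.filter (fun s => ψ s ∈ X), Finset.filter_subset _ _, ?_⟩
    ext y
    rw [Finset.mem_image]
    constructor
    · rintro ⟨s, hs, rfl⟩
      exact (Finset.mem_filter.1 hs).2
    · intro hy
      obtain ⟨s, hs, hsy⟩ := Finset.mem_image.1 (hX hy)
      exact ⟨s, Finset.mem_filter.2 ⟨hs, hsy ▸ hy⟩, hsy⟩
  obtain ⟨A', hA', rfl⟩ := hpre A hA
  obtain ⟨B', hB', rfl⟩ := hpre B hB
  obtain ⟨C', hC', rfl⟩ := hpre C hC
  have hd : ∀ X Y : Finset G, Disjoint (X.image ψ) (Y.image ψ) → Disjoint X Y := by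
    intro X Y h
    rw [Finset.disjoint_left] at h ⊢
    intro x hx hy
    exact h (Finset.mem_image_of_mem ψ hx) (Finset.mem_image_of_mem ψ hy)
  have hs : ∀ X : Finset G, ∑ y ∈ X.image ψ, y = ψ (∑ x ∈ X, x) := by
    intro X
    exact sum_image_hom ψ (T := X) hψ.injOn (Finset.Subset.refl _)
  rw [hs, hs] at h1
  rw [hs, hs] at h2
  apply hS
  refine ⟨A', B', C', hA', hB', hC', hd _ _ hAB, hd _ _ hAC, hd _ _ hBC, ?_, hψ h1, hψ h2⟩
  rcases hne with h | h | h
  · exact Or.inl (Finset.image_nonempty.1 h)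
  · exact Or.inr (Or.inl (Finset.image_nonempty.1 h))
  · exact Or.inr (Or.inr (Finset.image_nonempty.1 h))

/-- transfer to `ZMod n` along a map to the naturals whose subset sums are small and separate the
subset sums of the group -/
theorem zmod_transfer {K : Type} [AddCommGroup K] [DecidableEq K] {S : Finset K}
    (hS : ¬ HasTriple S) (a : K → ℕ)
    (ha : ∀ A B : Finset K, A ⊆ S → B ⊆ S → ∑ x ∈ A, a x = ∑ x ∈ B, a x →
      ∑ x ∈ A, x = ∑ x ∈ B, x) (n : ℕ) (hn : ∑ x ∈ S, a x < n) :
    ∃ T : Finset (ZMod n), ¬ HasTriple T ∧ T.card = S.card := by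
  classical
  have hlt : ∀ A : Finset K, A ⊆ S → ∑ x ∈ A, a x < n := fun A hA =>
    lt_of_le_of_lt (Finset.sum_le_sum_of_subset hA) hn
  have hcast : ∀ A B : Finset K, A ⊆ S → B ⊆ S →
      ((∑ x ∈ A, a x : ℕ) : ZMod n) = ((∑ x ∈ B, a x : ℕ) : ZMod n) →
      ∑ x ∈ A, a x = ∑ x ∈ B, a x := by
    intro A B hA hB h
    rw [ZMod.natCast_eq_natCast_iff] at h
    exact Nat.ModEq.eq_of_lt_of_lt h (hlt A hA) (hlt B hB)
  have hinj : Set.InjOn (fun x => (a x : ZMod n)) (S : Set K) := by
    intro x hx y hy hxy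
    have h1 := hcast {x} {y} (Finset.singleton_subset_iff.2 hx) (Finset.singleton_subset_iff.2 hy)
      (by rw [Finset.sum_singleton, Finset.sum_singleton]; exact hxy)
    have h2 := ha {x} {y} (Finset.singleton_subset_iff.2 hx) (Finset.singleton_subset_iff.2 hy) h1
    rwa [Finset.sum_singleton, Finset.sum_singleton] at h2
  refine ⟨S.image (fun x => (a x : ZMod n)), ?_, Finset.card_image_of_injOn hinj⟩
  rintro ⟨A, B, C, hA, hB, hC, hAB, hAC, hBC, hne, h1, h2⟩
  have hpre : ∀ X : Finset (ZMod n), X ⊆ S.image (fun x => (a x : ZMod n)) →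
      ∃ X' : Finset K, X' ⊆ S ∧ X'.image (fun x => (a x : ZMod n)) = X := by
    intro X hX
    refine ⟨S.filter (fun s => (a s : ZMod n) ∈ X), Finset.filter_subset _ _, ?_⟩
    ext y
    rw [Finset.mem_image]
    constructor
    · rintro ⟨s, hs, rfl⟩
      exact (Finset.mem_filter.1 hs).2
    · intro hy
      obtain ⟨s, hs, hsy⟩ := Finset.mem_image.1 (hX hy)
      exact ⟨s, Finset.mem_filter.2 ⟨hs, by rw [hsy]; exact hy⟩, hsy⟩
  obtain ⟨A', hA', rfl⟩ := hpre A hA
  obtain ⟨B', hB', rfl⟩ := hpre B hB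
  obtain ⟨C', hC', rfl⟩ := hpre C hC
  have hd : ∀ X Y : Finset K, Disjoint (X.image (fun x => (a x : ZMod n)))
      (Y.image (fun x => (a x : ZMod n))) → Disjoint X Y := by
    intro X Y h
    rw [Finset.disjoint_left] at h ⊢
    intro x hx hy
    exact h (Finset.mem_image_of_mem _ hx) (Finset.mem_image_of_mem _ hy)
  have hs : ∀ X : Finset K, X ⊆ S → ∑ y ∈ X.image (fun x => (a x : ZMod n)), y =
      ((∑ x ∈ X, a x : ℕ) : ZMod n) := by
    intro X hX
    rw [Finset.sum_image (fun x hx y hy h => hinj (hX hx) (hX hy) h), Nat.cast_sum]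
  rw [hs _ hA', hs _ hB'] at h1
  rw [hs _ hB', hs _ hC'] at h2
  apply hS
  refine ⟨A', B', C', hA', hB', hC', hd _ _ hAB, hd _ _ hAC, hd _ _ hBC, ?_,
    ha _ _ hA' hB' (hcast _ _ hA' hB' h1), ha _ _ hB' hC' (hcast _ _ hB' hC' h2)⟩
  rcases hne with h | h | h
  · exact Or.inl (Finset.image_nonempty.1 h)
  · exact Or.inr (Or.inl (Finset.image_nonempty.1 h))
  · exact Or.inr (Or.inr (Finset.image_nonempty.1 h))

/-- the extremal set -/
theorem exists_extremal {G : Type} [AddCommGroup G] [Finite G] :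
    ∃ S : Finset G, ¬ HasTriple S ∧ S.card + 1 = f G := by
  have h0 : 1 ≤ f G := by
    have := lt_f (∅ : Finset G) empty_no_triple
    rw [Finset.card_empty] at this
    omega
  have hn : f G - 1 ∉ {k : ℕ | ∀ S : Finset G, k ≤ S.card → HasTriple S} :=
    Nat.notMem_of_lt_sInf (by
      show f G - 1 < f G
      omega)
  have hn' : ¬ ∀ S : Finset G, f G - 1 ≤ S.card → HasTriple S := hn
  push Not at hn'
  obtain ⟨S, h1, h2⟩ := hn'
  refine ⟨S, h2, ?_⟩
  have := lt_f S h2
  omega

/-- (1) subgroups and quotients -/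
theorem f_extension {G : Type} [AddCommGroup G] [Finite G] (H : AddSubgroup G) :
    f H + f (G ⧸ H) ≤ f G + 1 := by
  classical
  obtain ⟨S1, h1, h1c⟩ := exists_extremal (G := H)
  obtain ⟨S2, h2, h2c⟩ := exists_extremal (G := G ⧸ H)
  set φ : G →+ G ⧸ H := QuotientAddGroup.mk' H with hφ
  set U : Finset G := S1.image H.subtype with hU
  have hsec : ∀ q : G ⧸ H, φ (Quotient.out q) = q := fun q => QuotientAddGroup.out_eq' q
  set L : Finset G := S2.image (fun q => Quotient.out q) with hL
  have hLim : L.image φ = S2 := by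
    ext q
    rw [Finset.mem_image]
    constructor
    · rintro ⟨x, hx, rfl⟩
      rw [hL, Finset.mem_image] at hx
      obtain ⟨p, hp, rfl⟩ := hx
      rw [hsec]; exact hp
    · intro hq
      exact ⟨Quotient.out q, by rw [hL]; exact Finset.mem_image_of_mem _ hq, hsec q⟩
  have hinj : Set.InjOn φ (L : Set G) := by
    intro x hx y hy hxy
    rw [hL, Finset.coe_image] at hx hy
    obtain ⟨p, _, rfl⟩ := hx
    obtain ⟨q, _, rfl⟩ := hy
    have : p = q := by
      have h3 : φ (Quotient.out p) = φ (Quotient.out q) := hxy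
      rwa [hsec, hsec] at h3
    rw [this]
  have hU0 : ∀ u ∈ U, φ u = 0 := by
    intro u hu
    rw [hU, Finset.mem_image] at hu
    obtain ⟨h, _, rfl⟩ := hu
    exact (QuotientAddGroup.eq_zero_iff _).2 h.2
  have hnt : ¬ HasTriple (U ∪ L) := by
    apply ext_no_triple φ hU0 hinj
    · rw [hLim]; exact h2
    · exact map_no_triple H.subtype H.subtype_injective h1
  have hdisj : Disjoint U L := by
    rw [Finset.disjoint_left]
    intro x hx hx'
    have h3 := hU0 x hx
    have h4 : φ x ∈ S2 := by rw [← hLim]; exact Finset.mem_image_of_mem _ hx'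
    rw [h3] at h4
    exact zero_notMem h2 h4
  have hc := lt_f _ hnt
  rw [Finset.card_union_of_disjoint hdisj] at hc
  have hUc : U.card = S1.card := Finset.card_image_of_injective _ H.subtype_injective
  have hLc : L.card = S2.card := by
    rw [← hLim, Finset.card_image_of_injOn hinj]
  omega

end Pool.Agent.Lib.RHO6
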