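import Pool.Agent.Lib.RHO6.A

/-!
# The integer tower and mixed radix
-/

set_option autoImplicit false

open Finset

namespace Pool.Agent.Lib.RHO6

open Pool.Agent.Results.MP_5a799b_co.LogBounds

/-- the tower in the integers over a set without triple in `ZMod m` -/
theorem tower (m : ℕ) (hm : 1 ≤ m) (S : Finset (ZMod m)) (hS : ¬ HasTriple S) (j : ℕ) :
    ∃ T : Finset ℤ, ¬ HasTriple T ∧ T.card = j * S.card ∧ (∀ x ∈ T, 0 ≤ x) ∧
      ∑ x ∈ T, x ≤ (S.card : ℤ) * ((m : ℤ) ^ j - 1) := by
  classical
  have : NeZero m := ⟨by omega⟩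
  induction j with
  | zero =>
    refine ⟨∅, empty_no_triple, by simp, by simp, by simp⟩
  | succ j ih =>
    obtain ⟨T, hT, hTc, hT0, hTs⟩ := ih
    set φ : ℤ →+ ZMod m := (Int.castRingHom (ZMod m)).toAddMonoidHom with hφ
    have hφa : ∀ x : ℤ, φ x = (x : ZMod m) := fun x => rfl
    set L : Finset ℤ := S.image (fun s => ((s.val : ℕ) : ℤ)) with hL
    set ψ : ℤ →+ ℤ := AddMonoidHom.mulLeft (m : ℤ) with hψ
    have hψa : ∀ x : ℤ, ψ x = (m : ℤ) * x := fun x => rfl
    have hψi : Function.Injective ψ := by
      intro x y hxy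
      rw [hψa, hψa] at hxy
      have hm0 : (m : ℤ) ≠ 0 := by exact_mod_cast (by omega : m ≠ 0)
      exact mul_left_cancel₀ hm0 hxy
    set U : Finset ℤ := T.image ψ with hU
    have hval : ∀ s : ZMod m, φ ((s.val : ℕ) : ℤ) = s := by
      intro s
      rw [hφa, Int.cast_natCast, ZMod.natCast_zmod_val]
    have hvi : Function.Injective (fun s : ZMod m => ((s.val : ℕ) : ℤ)) := by
      intro s t hst
      have h1 : φ ((s.val : ℕ) : ℤ) = φ ((t.val : ℕ) : ℤ) := by
        have : ((s.val : ℕ) : ℤ) = ((t.val : ℕ) : ℤ) := hst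
        rw [this]
      rwa [hval, hval] at h1
    have hLim : L.image φ = S := by
      ext q
      rw [Finset.mem_image]
      constructor
      · rintro ⟨x, hx, rfl⟩
        rw [hL, Finset.mem_image] at hx
        obtain ⟨p, hp, rfl⟩ := hx
        rw [hval]; exact hp
      · intro hq
        exact ⟨((q.val : ℕ) : ℤ), by rw [hL]; exact Finset.mem_image_of_mem _ hq, hval q⟩
    have hinj : Set.InjOn φ (L : Set ℤ) := by
      intro x hx y hy hxy
      rw [hL, Finset.coe_image] at hx hy
      obtain ⟨p, _, rfl⟩ := hx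
      obtain ⟨q, _, rfl⟩ := hy
      have : p = q := by
        have h3 : φ ((p.val : ℕ) : ℤ) = φ ((q.val : ℕ) : ℤ) := hxy
        rwa [hval, hval] at h3
      rw [this]
    have hU0 : ∀ u ∈ U, φ u = 0 := by
      intro u hu
      rw [hU, Finset.mem_image] at hu
      obtain ⟨t, _, rfl⟩ := hu
      rw [hφa, hψa]
      push_cast
      rw [ZMod.natCast_self, zero_mul]
    have hnt : ¬ HasTriple (U ∪ L) := by
      apply ext_no_triple φ hU0 hinj
      · rw [hLim]; exact hS
      · exact map_no_triple ψ hψi hT
    have hdisj : Disjoint U L := by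
      rw [Finset.disjoint_left]
      intro x hx hx'
      have h3 := hU0 x hx
      have h4 : φ x ∈ S := by rw [← hLim]; exact Finset.mem_image_of_mem _ hx'
      rw [h3] at h4
      exact zero_notMem hS h4
    have hUc : U.card = T.card := Finset.card_image_of_injective _ hψi
    have hLc : L.card = S.card := Finset.card_image_of_injective _ hvi
    refine ⟨U ∪ L, hnt, ?_, ?_, ?_⟩
    · rw [Finset.card_union_of_disjoint hdisj, hUc, hLc, hTc]
      ring
    · intro x hx
      rcases Finset.mem_union.1 hx with h | h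
      · rw [hU, Finset.mem_image] at h
        obtain ⟨t, ht, rfl⟩ := h
        rw [hψa]
        have := hT0 t ht
        positivity
      · rw [hL, Finset.mem_image] at h
        obtain ⟨s, _, rfl⟩ := h
        positivity
    · rw [Finset.sum_union hdisj, hU, Finset.sum_image (fun x _ y _ h => hψi h), hL,
        Finset.sum_image (fun x _ y _ h => hvi h)]
      have h1 : ∑ x ∈ T, ψ x = (m : ℤ) * ∑ x ∈ T, x := by
        rw [Finset.mul_sum]
        exact Finset.sum_congr rfl (fun x _ => hψa x)
      have h2 : ∑ s ∈ S, ((s.val : ℕ) : ℤ) ≤ ∑ s ∈ S, ((m : ℤ) - 1) := by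
        apply Finset.sum_le_sum
        intro s _
        have := ZMod.val_lt s
        omega
      rw [Finset.sum_const, nsmul_eq_mul] at h2
      rw [h1]
      have h3 : (m : ℤ) * ∑ x ∈ T, x ≤ (m : ℤ) * ((S.card : ℤ) * ((m : ℤ) ^ j - 1)) :=
        mul_le_mul_of_nonneg_left hTs (by positivity)
      have h4 : (S.card : ℤ) * ((m : ℤ) ^ (j + 1) - 1) =
          (m : ℤ) * ((S.card : ℤ) * ((m : ℤ) ^ j - 1)) + (S.card : ℤ) * ((m : ℤ) - 1) := by
        ring
      rw [h4]
      linarith

/-- (2), the inequality behind Fekete's lemma -/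
theorem f_zmod_tower (m : ℕ) (hm : 1 ≤ m) (j n : ℕ) (hn : 1 ≤ n)
    (h : (f (ZMod m) - 1) * m ^ j ≤ n) :
    j * (f (ZMod m) - 1) + 1 ≤ f (ZMod n) := by
  classical
  have : NeZero m := ⟨by omega⟩
  have : NeZero n := ⟨by omega⟩
  obtain ⟨S, hS, hSc⟩ := exists_extremal (G := ZMod m)
  have hSc' : f (ZMod m) - 1 = S.card := by omega
  rw [hSc'] at h ⊢
  obtain ⟨T, hT, hTc, hT0, hTs⟩ := tower m hm S hS j
  have hsum : ∀ A : Finset ℤ, A ⊆ T → ((∑ x ∈ A, x.toNat : ℕ) : ℤ) = ∑ x ∈ A, x := by
    intro A hA
    rw [Nat.cast_sum]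
    exact Finset.sum_congr rfl (fun x hx => Int.toNat_of_nonneg (hT0 x (hA hx)))
  obtain ⟨R, hR, hRc⟩ := zmod_transfer hT (fun x => x.toNat) (by
    intro A B hA hB hAB
    rw [← hsum A hA, ← hsum B hB]
    exact_mod_cast hAB) n (by
    have h1 := hsum T (Finset.Subset.refl _)
    have h2 : ((∑ x ∈ T, x.toNat : ℕ) : ℤ) < (n : ℤ) := by
      rw [h1]
      have h3 : ((S.card * m ^ j : ℕ) : ℤ) ≤ (n : ℤ) := by exact_mod_cast h
      push_cast at h3
      rcases Nat.eq_zero_or_pos S.card with h4 | h4
      · rw [h4] at hTs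
        have : (1 : ℤ) ≤ n := by exact_mod_cast hn
        have h5 : ∑ x ∈ T, x ≤ 0 := by
          have : (((0 : ℕ) : ℤ)) * ((m : ℤ) ^ j - 1) = 0 := by simp
          rw [this] at hTs
          exact hTs
        linarith
      · have h5 : (1 : ℤ) ≤ (S.card : ℤ) := by exact_mod_cast h4
        have h6 : (S.card : ℤ) * ((m : ℤ) ^ j - 1) = (S.card : ℤ) * (m : ℤ) ^ j - S.card := by
          ring
        rw [h6] at hTs
        linarith
    exact_mod_cast h2)
  have := lt_f R hR
  rw [hRc, hTc] at this
  omega

/-- mixed radix for products of cyclic groups, with multisets of at most `k` elements -/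
theorem radix (k : ℕ) (hk : 1 ≤ k) : ∀ (r : ℕ) (m : Fin r → ℕ), (∀ i, 1 ≤ m i) →
    ∃ a : (∀ i, ZMod (m i)) → ℕ, (∀ x, k * a x < ∏ i, (k * m i)) ∧
      ∀ s t : Multiset (∀ i, ZMod (m i)), Multiset.card s ≤ k → Multiset.card t ≤ k →
        (s.map a).sum = (t.map a).sum → s.sum = t.sum := by
  intro r
  induction r with
  | zero =>
    intro m _
    refine ⟨fun _ => 0, by intro x; simp, ?_⟩
    intro s t _ _ _
    funext i
    exact i.elim0
  | succ r ih =>
    intro m hm
    obtain ⟨a, ha, hs⟩ := ih (fun i => m i.succ) (fun i => hm i.succ)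
    have : NeZero (m 0) := ⟨by have := hm 0; omega⟩
    set tl : (∀ i, ZMod (m i)) →+ (∀ i : Fin r, ZMod (m i.succ)) :=
      { toFun := fun x i => x i.succ
        map_zero' := rfl
        map_add' := fun x y => rfl } with htl
    set hd : (∀ i, ZMod (m i)) →+ ZMod (m 0) :=
      { toFun := fun x => x 0
        map_zero' := rfl
        map_add' := fun x y => rfl } with hhd
    have hvk : ∀ x : ZMod (m 0), k * x.val + 1 ≤ k * m 0 := by
      intro x
      have h1 := ZMod.val_lt x
      have h2 : k * (x.val + 1) ≤ k * m 0 := Nat.mul_le_mul_left k h1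
      rw [mul_add, mul_one] at h2
      omega
    refine ⟨fun x => (hd x).val + (k * m 0) * a (tl x), ?_, ?_⟩
    · intro x
      rw [Fin.prod_univ_succ]
      have h1 := hvk (hd x)
      have h2 : k * a (tl x) + 1 ≤ ∏ i : Fin r, (k * m i.succ) := ha (tl x)
      have h3 : (k * m 0) * (k * a (tl x) + 1) ≤ (k * m 0) * ∏ i : Fin r, (k * m i.succ) :=
        Nat.mul_le_mul_left _ h2
      have h4 : k * ((hd x).val + (k * m 0) * a (tl x)) =
          k * (hd x).val + (k * m 0) * (k * a (tl x)) := by ring
      rw [h4]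
      rw [mul_add, mul_one] at h3
      omega
    · intro s t hsc htc hst
      have hmapsum : ∀ u : Multiset (∀ i, ZMod (m i)),
          (u.map (fun x => (hd x).val + (k * m 0) * a (tl x))).sum =
          (u.map (fun x => (hd x).val)).sum + (k * m 0) * ((u.map tl).map a).sum := by
        intro u
        rw [Multiset.sum_map_add, Multiset.sum_map_mul_left, Multiset.map_map]
        rfl
      have hlt : ∀ u : Multiset (∀ i, ZMod (m i)), Multiset.card u ≤ k →
          (u.map (fun x => (hd x).val)).sum < k * m 0 := by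
        intro u hu
        have h1 : (u.map (fun x => (hd x).val)).sum ≤
            Multiset.card (u.map (fun x => (hd x).val)) • (m 0 - 1) := by
          apply Multiset.sum_le_card_nsmul
          intro y hy
          rw [Multiset.mem_map] at hy
          obtain ⟨x, _, rfl⟩ := hy
          have := ZMod.val_lt (hd x)
          omega
        rw [Multiset.card_map, smul_eq_mul] at h1
        have h2 : Multiset.card u * (m 0 - 1) ≤ k * (m 0 - 1) := Nat.mul_le_mul_right _ hu
        have h3 : k * (m 0 - 1) + k = k * m 0 := by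
          have := hm 0
          calc k * (m 0 - 1) + k = k * (m 0 - 1 + 1) := by ring
            _ = k * m 0 := by rw [Nat.sub_add_cancel this]
        omega
      rw [hmapsum, hmapsum] at hst
      have e1 := hlt s hsc
      have e2 := hlt t htc
      have hK : 0 < k * m 0 := by
        have := hm 0
        positivity
      have hmod : (s.map (fun x => (hd x).val)).sum = (t.map (fun x => (hd x).val)).sum := by
        have h1 := congrArg (· % (k * m 0)) hst
        simp only [Nat.add_mul_mod_self_left] at h1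
        rwa [Nat.mod_eq_of_lt e1, Nat.mod_eq_of_lt e2] at h1
      have hdiv : ((s.map tl).map a).sum = ((t.map tl).map a).sum := by
        rw [hmod] at hst
        have h1 := Nat.add_left_cancel hst
        exact Nat.eq_of_mul_eq_mul_left hK h1
      have htail := hs (s.map tl) (t.map tl) (by rw [Multiset.card_map]; exact hsc)
        (by rw [Multiset.card_map]; exact htc) hdiv
      rw [← map_multiset_sum tl, ← map_multiset_sum tl] at htail
      have hhead : hd s.sum = hd t.sum := by
        rw [map_multiset_sum hd, map_multiset_sum hd]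
        have h1 : ∀ u : Multiset (∀ i, ZMod (m i)),
            (u.map hd).sum = (((u.map (fun x => (hd x).val)).sum : ℕ) : ZMod (m 0)) := by
          intro u
          rw [Nat.cast_multiset_sum, Multiset.map_map]
          congr 1
          apply Multiset.map_congr rfl
          intro x _
          show hd x = (((hd x).val : ℕ) : ZMod (m 0))
          rw [ZMod.natCast_zmod_val]
        rw [h1, h1, hmod]
      funext i
      refine Fin.cases ?_ ?_ i
      · exact hhead
      · intro i
        exact congrFun htail i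

/-- (4) a set without triple in a product of `r` cyclic groups fits into `ZMod n` -/
theorem product_to_zmod {r : ℕ} (m : Fin r → ℕ) (hm : ∀ i, 1 ≤ m i)
    (S : Finset (∀ i, ZMod (m i))) (hS : ¬ HasTriple S) (hk : 1 ≤ S.card) (n : ℕ)
    (hn : S.card ^ r * ∏ i, m i ≤ n) : S.card + 1 ≤ f (ZMod n) := by
  classical
  obtain ⟨a, ha, hs⟩ := radix S.card hk r m hm
  have hprod : ∏ i, (S.card * m i) = S.card ^ r * ∏ i, m i := by
    rw [Finset.prod_mul_distrib, Finset.prod_const, Finset.card_univ, Fintype.card_fin]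
  have hpos : 1 ≤ n := by
    have h1 : 0 < ∏ i, (S.card * m i) := by
      apply Finset.prod_pos
      intro i _
      have := hm i
      positivity
    rw [hprod] at h1
    omega
  have : NeZero n := ⟨by omega⟩
  obtain ⟨R, hR, hRc⟩ := zmod_transfer hS a (by
    intro A B hA hB hAB
    have h1 := hs A.val B.val (Finset.card_le_card hA) (Finset.card_le_card hB) hAB
    rw [← Multiset.map_id A.val, ← Multiset.map_id B.val] at h1
    exact h1) n (by
    have h1 : ∀ x ∈ S, S.card * a x ≤ (∏ i, (S.card * m i)) - 1 := by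
      intro x _
      have := ha x
      omega
    have h2 : ∑ x ∈ S, S.card * a x ≤ S.card * ((∏ i, (S.card * m i)) - 1) := by
      have := Finset.sum_le_sum h1
      rwa [Finset.sum_const, smul_eq_mul] at this
    rw [← Finset.mul_sum] at h2
    have h3 : ∑ x ∈ S, a x ≤ (∏ i, (S.card * m i)) - 1 := Nat.le_of_mul_le_mul_left h2 hk
    rw [hprod] at h3
    omega)
  have := lt_f R hR
  omega

end Pool.Agent.Lib.RHO6
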