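import Pool.Agent.Lib.RHO6.B

/-!
# Limits of `f(Z_n) / log n` and `F(n) / log n`
-/

set_option autoImplicit false

open Finset Filter Topology

namespace Pool.Agent.Lib.RHO6

open Pool.Agent.Results.MP_5a799b_co.LogBounds

theorem f_pos {G : Type} [AddCommGroup G] [Finite G] : 1 ≤ f G := by
  obtain ⟨S, _, h⟩ := exists_extremal (G := G)
  omega

theorem f_le_of_equiv {G K : Type} [AddCommGroup G] [AddCommGroup K] [Finite G] [Finite K]
    (e : G ≃+ K) : f G ≤ f K := by
  classical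
  obtain ⟨S, hS, hSc⟩ := exists_extremal (G := G)
  have h1 := lt_f _ (map_no_triple e.toAddMonoidHom e.injective hS)
  rw [Finset.card_image_of_injective _ (show Function.Injective e.toAddMonoidHom from e.injective)]
    at h1
  omega

theorem f_prod (G K : Type) [AddCommGroup G] [AddCommGroup K] [Finite G] [Finite K] :
    f G + f K ≤ f (G × K) + 1 := by
  classical
  obtain ⟨S1, h1, h1c⟩ := exists_extremal (G := G)
  obtain ⟨S2, h2, h2c⟩ := exists_extremal (G := K)
  set φ : G × K →+ K := AddMonoidHom.snd G K with hφ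
  set U : Finset (G × K) := S1.image (AddMonoidHom.inl G K) with hU
  set L : Finset (G × K) := S2.image (AddMonoidHom.inr G K) with hL
  have hi1 : Function.Injective (AddMonoidHom.inl G K) := by
    intro x y h
    exact (Prod.ext_iff.1 h).1
  have hi2 : Function.Injective (AddMonoidHom.inr G K) := by
    intro x y h
    exact (Prod.ext_iff.1 h).2
  have hLim : L.image φ = S2 := by
    ext q
    rw [Finset.mem_image]
    constructor
    · rintro ⟨x, hx, rfl⟩
      rw [hL, Finset.mem_image] at hx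
      obtain ⟨p, hp, rfl⟩ := hx
      exact hp
    · intro hq
      exact ⟨AddMonoidHom.inr G K q, by rw [hL]; exact Finset.mem_image_of_mem _ hq, rfl⟩
  have hinj : Set.InjOn φ (L : Set (G × K)) := by
    intro x hx y hy hxy
    rw [hL, Finset.coe_image] at hx hy
    obtain ⟨p, _, rfl⟩ := hx
    obtain ⟨q, _, rfl⟩ := hy
    have : p = q := hxy
    rw [this]
  have hU0 : ∀ u ∈ U, φ u = 0 := by
    intro u hu
    rw [hU, Finset.mem_image] at hu
    obtain ⟨h, _, rfl⟩ := hu
    rfl
  have hnt : ¬ HasTriple (U ∪ L) := by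
    apply ext_no_triple φ hU0 hinj
    · rw [hLim]; exact h2
    · exact map_no_triple _ hi1 h1
  have hdisj : Disjoint U L := by
    rw [Finset.disjoint_left]
    intro x hx hx'
    have h3 := hU0 x hx
    have h4 : φ x ∈ S2 := by rw [← hLim]; exact Finset.mem_image_of_mem _ hx'
    rw [h3] at h4
    exact zero_notMem h2 h4
  have hc := lt_f _ hnt
  rw [Finset.card_union_of_disjoint hdisj] at hc
  have hUc : U.card = S1.card := Finset.card_image_of_injective _ hi1
  have hLc : L.card = S2.card := Finset.card_image_of_injective _ hi2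
  omega

/-! ### the function `F` -/

theorem F_set (n : ℕ) (hn : 1 ≤ n) :
    (∀ (G : Type) (_ : AddCommGroup G), Nat.card G = n → f G ≤ F n) ∧
    ∃ (G : Type) (_ : AddCommGroup G), Nat.card G = n ∧ f G = F n := by
  have : NeZero n := ⟨by omega⟩
  have hfin : ∀ (G : Type) (_ : AddCommGroup G), Nat.card G = n → Finite G := by
    intro G _ h
    exact Nat.finite_of_card_ne_zero (by omega)
  have hub : ∀ m ∈ {m : ℕ | ∃ (G : Type) (_ : AddCommGroup G), Nat.card G = n ∧ f G = m},
      (m : ℝ) ≤ 2 * Real.log n / Real.log (3 / 2) + 1 := by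
    rintro m ⟨G, inst, hG, rfl⟩
    have := hfin G inst hG
    have h := f_le (G := G)
    rwa [hG] at h
  have hmem : f (ZMod n) ∈ {m : ℕ | ∃ (G : Type) (_ : AddCommGroup G), Nat.card G = n ∧ f G = m} :=
    ⟨ZMod n, inferInstance, Nat.card_zmod n, rfl⟩
  have hbdd : BddAbove {m : ℕ | ∃ (G : Type) (_ : AddCommGroup G), Nat.card G = n ∧ f G = m} := by
    refine ⟨⌊2 * Real.log n / Real.log (3 / 2) + 1⌋₊, ?_⟩
    intro m hm
    exact Nat.le_floor (hub m hm)
  constructor
  · intro G inst hG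
    exact le_csSup hbdd ⟨G, inst, hG, rfl⟩
  · exact Nat.sSup_mem ⟨_, hmem⟩ hbdd

theorem f_zmod_le_F (n : ℕ) (hn : 1 ≤ n) : f (ZMod n) ≤ F n :=
  (F_set n hn).1 (ZMod n) inferInstance (Nat.card_zmod n)

theorem F_le (n : ℕ) (hn : 1 ≤ n) : (F n : ℝ) ≤ 2 * Real.log n / Real.log (3 / 2) + 1 := by
  obtain ⟨G, inst, hG, hf⟩ := (F_set n hn).2
  have : Finite G := Nat.finite_of_card_ne_zero (by omega)
  have h := f_le (G := G)
  rwa [hG, hf] at h

theorem F_pos (n : ℕ) (hn : 1 ≤ n) : 1 ≤ F n := by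
  have : NeZero n := ⟨by omega⟩
  exact le_trans f_pos (f_zmod_le_F n hn)

theorem F_mul (a b : ℕ) (ha : 1 ≤ a) (hb : 1 ≤ b) : F a + F b ≤ F (a * b) + 1 := by
  obtain ⟨G, i1, hG, hGf⟩ := (F_set a ha).2
  obtain ⟨K, i2, hK, hKf⟩ := (F_set b hb).2
  have : Finite G := Nat.finite_of_card_ne_zero (by omega)
  have : Finite K := Nat.finite_of_card_ne_zero (by omega)
  have h1 := f_prod G K
  have h2 := (F_set (a * b) (Nat.mul_pos ha hb)).1 (G × K) inferInstance
    (by rw [Nat.card_prod, hG, hK])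
  omega

theorem F_pow (a : ℕ) (ha : 1 ≤ a) (j : ℕ) : j * (F a - 1) + 1 ≤ F (a ^ j) := by
  induction j with
  | zero => simpa using F_pos 1 le_rfl
  | succ j ih =>
    have h1 := F_mul (a ^ j) a (Nat.one_le_pow _ _ ha) ha
    rw [← pow_succ] at h1
    have h2 := F_pos a ha
    have h3 : (j + 1) * (F a - 1) = j * (F a - 1) + (F a - 1) := by ring
    omega

theorem F_prime (p : ℕ) (hp : p.Prime) : F p = f (ZMod p) := by
  have : Fact p.Prime := ⟨hp⟩
  have hp1 : 1 ≤ p := hp.one_le
  apply le_antisymm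
  · obtain ⟨G, inst, hG, hf⟩ := (F_set p hp1).2
    have : Finite G := Nat.finite_of_card_ne_zero (by omega)
    have hc : IsAddCyclic G := isAddCyclic_of_prime_card hG
    have e : ZMod (Nat.card G) ≃+ G := zmodAddCyclicAddEquiv hc
    rw [hG] at e
    rw [← hf]
    exact f_le_of_equiv e.symm
  · exact f_zmod_le_F p hp1

/-! ### the constants -/

/-- the quotients for cyclic groups -/
def Xs : Set ℝ := {x | ∃ n : ℕ, 2 ≤ n ∧ x = ((f (ZMod n) : ℝ) - 1) / Real.log n}

/-- the quotients for all groups -/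
def Ys : Set ℝ := {x | ∃ n : ℕ, 2 ≤ n ∧ x = ((F n : ℝ) - 1) / Real.log n}

theorem log_pos_of (n : ℕ) (hn : 2 ≤ n) : 0 < Real.log n :=
  Real.log_pos (by exact_mod_cast (by omega : 1 < n))

theorem Ys_le : ∀ x ∈ Ys, x ≤ 2 / Real.log (3 / 2) := by
  rintro x ⟨n, hn, rfl⟩
  have h1 := F_le n (by omega)
  have h2 := log_pos_of n hn
  rw [div_le_iff₀ h2]
  have h3 : 2 / Real.log (3 / 2) * Real.log n = 2 * Real.log n / Real.log (3 / 2) := by ring
  rw [h3]
  linarith

theorem Xs_le : ∀ x ∈ Xs, ∃ y ∈ Ys, x ≤ y := by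
  rintro x ⟨n, hn, rfl⟩
  refine ⟨_, ⟨n, hn, rfl⟩, ?_⟩
  have h1 : (f (ZMod n) : ℝ) ≤ F n := by exact_mod_cast f_zmod_le_F n (by omega)
  have h2 := log_pos_of n hn
  exact div_le_div_of_nonneg_right (by linarith) h2.le

theorem Xs_ne : Xs.Nonempty := ⟨_, 2, le_rfl, rfl⟩
theorem Ys_ne : Ys.Nonempty := ⟨_, 2, le_rfl, rfl⟩

theorem Ys_bdd : BddAbove Ys := ⟨_, Ys_le⟩
theorem Xs_bdd : BddAbove Xs := ⟨2 / Real.log (3 / 2), fun x hx => by
  obtain ⟨y, hy, h⟩ := Xs_le x hx
  exact h.trans (Ys_le y hy)⟩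

theorem tendsto_inv_log : Tendsto (fun n : ℕ => (Real.log (n : ℝ))⁻¹) atTop (𝓝 0) :=
  tendsto_inv_atTop_zero.comp (Real.tendsto_log_atTop.comp tendsto_natCast_atTop_atTop)

/-- Fekete for cyclic groups -/
theorem tendsto_cyclic : Tendsto (fun n : ℕ => (f (ZMod n) : ℝ) / Real.log n) atTop
    (𝓝 (sSup Xs)) := by
  rw [tendsto_order]
  constructor
  · intro a ha
    obtain ⟨x, ⟨m, hm, rfl⟩, hax⟩ := exists_lt_of_lt_csSup Xs_ne ha
    have : NeZero m := ⟨by omega⟩
    have hf1 : 1 ≤ f (ZMod m) := f_pos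
    set k : ℕ := f (ZMod m) - 1 with hk
    have hkr : ((f (ZMod m) : ℝ) - 1) = (k : ℝ) := by
      rw [hk, Nat.cast_sub hf1, Nat.cast_one]
    rw [hkr] at hax
    have hlm := log_pos_of m hm
    rcases Nat.eq_zero_or_pos k with h0 | hkpos
    · rw [h0, Nat.cast_zero, zero_div] at hax
      filter_upwards [eventually_ge_atTop 2] with n hn
      have := log_pos_of n hn
      have h1 : (0 : ℝ) ≤ (f (ZMod n) : ℝ) / Real.log n := by positivity
      linarith
    · have hlim : Tendsto (fun n : ℕ => (k : ℝ) / Real.log m *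
          (1 - (Real.log k + Real.log m) * (Real.log (n : ℝ))⁻¹)) atTop
          (𝓝 ((k : ℝ) / Real.log m * (1 - (Real.log k + Real.log m) * 0))) :=
        (tendsto_const_nhds.sub (tendsto_inv_log.const_mul _)).const_mul _
      rw [mul_zero, sub_zero, mul_one] at hlim
      filter_upwards [hlim.eventually (lt_mem_nhds hax), eventually_ge_atTop (k + 2)] with n h1 hn
      refine lt_of_lt_of_le h1 ?_
      have hn2 : 2 ≤ n := by omega
      have hln := log_pos_of n hn2
      set j : ℕ := Nat.log m (n / k) with hj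
      have hq : n / k ≠ 0 := by
        have : 1 ≤ n / k := (Nat.one_le_div_iff hkpos).2 (by omega)
        omega
      have hle : k * m ^ j ≤ n := by
        have h2 : m ^ j ≤ n / k := Nat.pow_log_le_self m hq
        calc k * m ^ j ≤ k * (n / k) := Nat.mul_le_mul_left _ h2
          _ ≤ n := Nat.mul_div_le n k
      have hlt : n < k * m ^ (j + 1) := by
        have h2 : n / k < m ^ (j + 1) := Nat.lt_pow_succ_log_self (by omega) _
        rw [Nat.div_lt_iff_lt_mul hkpos] at h2
        rwa [mul_comm] at h2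
      have hf := f_zmod_tower m (by omega) j n (by omega) (by rw [← hk]; exact hle)
      rw [← hk] at hf
      have hlog : Real.log n ≤ Real.log k + (j + 1) * Real.log m := by
        have h2 : (n : ℝ) ≤ (k : ℝ) * (m : ℝ) ^ (j + 1) := by exact_mod_cast hlt.le
        have hn0 : (0 : ℝ) < n := by exact_mod_cast (by omega : 0 < n)
        have hk0 : (0 : ℝ) < k := by exact_mod_cast hkpos
        have hm0 : (0 : ℝ) < m := by exact_mod_cast (by omega : 0 < m)
        have h3 := Real.log_le_log hn0 h2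
        rw [Real.log_mul hk0.ne' (by positivity), Real.log_pow] at h3
        push_cast at h3
        exact h3
      have hjr : (j : ℝ) * k ≤ (f (ZMod n) : ℝ) := by
        have : ((j * k + 1 : ℕ) : ℝ) ≤ (f (ZMod n) : ℝ) := by exact_mod_cast hf
        push_cast at this
        linarith
      have hk0 : (0 : ℝ) < k := by exact_mod_cast hkpos
      rw [le_div_iff₀ hln]
      have e1 : (k : ℝ) / Real.log m * (1 - (Real.log k + Real.log m) * (Real.log (n : ℝ))⁻¹) *
          Real.log n = (k : ℝ) / Real.log m * (Real.log n - (Real.log k + Real.log m)) := by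
        field_simp
      rw [e1]
      have e2 : (Real.log n - (Real.log k + Real.log m)) ≤ j * Real.log m := by nlinarith
      calc (k : ℝ) / Real.log m * (Real.log n - (Real.log k + Real.log m))
          ≤ (k : ℝ) / Real.log m * (j * Real.log m) :=
            mul_le_mul_of_nonneg_left e2 (by positivity)
        _ = (j : ℝ) * k := by field_simp
        _ ≤ _ := hjr
  · intro a ha
    have hlim : Tendsto (fun n : ℕ => sSup Xs + (Real.log (n : ℝ))⁻¹) atTop (𝓝 (sSup Xs + 0)) :=
      tendsto_const_nhds.add tendsto_inv_log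
    rw [add_zero] at hlim
    filter_upwards [hlim.eventually (gt_mem_nhds ha), eventually_ge_atTop 2] with n h1 hn
    refine lt_of_le_of_lt ?_ h1
    have hln := log_pos_of n hn
    have h2 : ((f (ZMod n) : ℝ) - 1) / Real.log n ≤ sSup Xs := le_csSup Xs_bdd ⟨n, hn, rfl⟩
    have h3 : (f (ZMod n) : ℝ) / Real.log n =
        ((f (ZMod n) : ℝ) - 1) / Real.log n + (Real.log (n : ℝ))⁻¹ := by
      field_simp
      ring
    rw [h3]
    linarith

theorem lam_ge : 1 / Real.log (3 / 2) ≤ sSup Xs := by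
  have hL := log32_pos
  have hlim : Tendsto (fun n : ℕ => 1 / Real.log (3 / 2) - 3 * (Real.log (n : ℝ))⁻¹) atTop
      (𝓝 (1 / Real.log (3 / 2) - 3 * 0)) :=
    tendsto_const_nhds.sub (tendsto_inv_log.const_mul 3)
  rw [mul_zero, sub_zero] at hlim
  apply le_of_tendsto_of_tendsto hlim tendsto_cyclic
  filter_upwards [eventually_ge_atTop 5] with n hn
  have h1 := le_f_zmod n hn
  have hln := log_pos_of n (by omega)
  rw [le_div_iff₀ hln]
  have e1 : (1 / Real.log (3 / 2) - 3 * (Real.log (n : ℝ))⁻¹) * Real.log n =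
      Real.log n / Real.log (3 / 2) - 3 := by
    field_simp
  rw [e1]
  exact h1

theorem lam_le_Lam : sSup Xs ≤ sSup Ys := by
  apply csSup_le Xs_ne
  intro x hx
  obtain ⟨y, hy, h⟩ := Xs_le x hx
  exact h.trans (le_csSup Ys_bdd hy)

theorem Lam_le : sSup Ys ≤ 2 / Real.log (3 / 2) := csSup_le Ys_ne Ys_le

theorem ev_bounds (ε : ℝ) (hε : 0 < ε) : ∀ᶠ n : ℕ in atTop,
    sSup Xs - ε ≤ (F n : ℝ) / Real.log n ∧ (F n : ℝ) / Real.log n ≤ sSup Ys + ε := by
  filter_upwards [tendsto_cyclic.eventually (lt_mem_nhds (by linarith : sSup Xs - ε < sSup Xs)),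
    tendsto_inv_log.eventually (gt_mem_nhds hε), eventually_ge_atTop 2] with n h1 h2 hn
  have hln := log_pos_of n hn
  constructor
  · refine h1.le.trans ?_
    exact div_le_div_of_nonneg_right (by exact_mod_cast f_zmod_le_F n (by omega)) hln.le
  · have h3 : ((F n : ℝ) - 1) / Real.log n ≤ sSup Ys := le_csSup Ys_bdd ⟨n, hn, rfl⟩
    have h4 : (F n : ℝ) / Real.log n = ((F n : ℝ) - 1) / Real.log n + (Real.log (n : ℝ))⁻¹ := by
      field_simp
      ring
    rw [h4]
    linarith

theorem freq_low (ε : ℝ) (hε : 0 < ε) :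
    ∃ᶠ n : ℕ in atTop, (F n : ℝ) / Real.log n ≤ sSup Xs + ε := by
  have h1 := tendsto_cyclic.eventually (gt_mem_nhds (by linarith : sSup Xs < sSup Xs + ε))
  rw [eventually_atTop] at h1
  obtain ⟨N, hN⟩ := h1
  rw [frequently_atTop]
  intro M
  obtain ⟨p, hp, hpp⟩ := Nat.exists_infinite_primes (max N M)
  refine ⟨p, le_trans (le_max_right _ _) hp, ?_⟩
  rw [F_prime p hpp]
  exact (hN p (le_trans (le_max_left _ _) hp)).le

theorem freq_high (ε : ℝ) (hε : 0 < ε) :
    ∃ᶠ n : ℕ in atTop, sSup Ys - ε ≤ (F n : ℝ) / Real.log n := by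
  obtain ⟨x, ⟨m, hm, rfl⟩, hx⟩ := exists_lt_of_lt_csSup Ys_ne (by linarith : sSup Ys - ε < sSup Ys)
  rw [frequently_atTop]
  intro M
  have hpow : M + 1 ≤ m ^ (M + 1) := (Nat.lt_pow_self (by omega)).le
  refine ⟨m ^ (M + 1), by omega, hx.le.trans ?_⟩
  have hlm := log_pos_of m hm
  have h1 := F_pow m (by omega) (M + 1)
  have hF1 := F_pos m (by omega)
  have h2 : (((M + 1) * (F m - 1) + 1 : ℕ) : ℝ) ≤ (F (m ^ (M + 1)) : ℝ) := by exact_mod_cast h1
  push_cast [Nat.cast_sub hF1] at h2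
  have hj : (0 : ℝ) < (M : ℝ) + 1 := by positivity
  rw [Nat.cast_pow, Real.log_pow]
  push_cast
  rw [div_le_div_iff₀ hlm (by positivity)]
  nlinarith

theorem F_ev_pos : ∀ᶠ n : ℕ in atTop, 0 < (F n : ℝ) / Real.log n := by
  filter_upwards [eventually_ge_atTop 2] with n hn
  have h1 := F_pos n (by omega)
  have hln := log_pos_of n hn
  have : (0 : ℝ) < F n := by exact_mod_cast h1
  positivity

theorem tendsto_of_eq (h : sSup Xs = sSup Ys) :
    Tendsto (fun n : ℕ => Real.log n / (F n : ℝ)) atTop (𝓝 (1 / sSup Xs)) := by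
  have h1 : Tendsto (fun n : ℕ => (F n : ℝ) / Real.log n) atTop (𝓝 (sSup Xs)) := by
    rw [tendsto_order]
    constructor
    · intro a ha
      filter_upwards [ev_bounds ((sSup Xs - a) / 2) (by linarith)] with n hn
      linarith [hn.1]
    · intro a ha
      filter_upwards [ev_bounds ((a - sSup Xs) / 2) (by linarith)] with n hn
      rw [← h] at hn
      linarith [hn.2]
  have hpos : 0 < sSup Xs := lt_of_lt_of_le (by have := log32_pos; positivity) lam_ge
  have h2 := h1.inv₀ hpos.ne'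
  rw [one_div]
  refine h2.congr ?_
  intro n
  rw [inv_div]

theorem eq_of_tendsto (ρ : ℝ)
    (h : Tendsto (fun n : ℕ => Real.log n / (F n : ℝ)) atTop (𝓝 ρ)) : sSup Xs = sSup Ys := by
  have hpos : 0 < sSup Xs := lt_of_lt_of_le (by have := log32_pos; positivity) lam_ge
  have hLpos : 0 < sSup Ys := lt_of_lt_of_le hpos lam_le_Lam
  have hρ : 0 < ρ := by
    have h1 : 1 / (sSup Ys + 1) ≤ ρ := by
      apply ge_of_tendsto h
      filter_upwards [ev_bounds 1 one_pos, F_ev_pos] with n hn hp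
      have e1 : Real.log n / (F n : ℝ) = 1 / ((F n : ℝ) / Real.log n) := by
        rw [one_div_div]
      rw [e1]
      exact one_div_le_one_div_of_le hp hn.2
    have h2 : 0 < 1 / (sSup Ys + 1) := by positivity
    linarith
  have h3 : Tendsto (fun n : ℕ => (F n : ℝ) / Real.log n) atTop (𝓝 ρ⁻¹) := by
    refine (h.inv₀ hρ.ne').congr ?_
    intro n
    rw [inv_div]
  have h4 : ρ⁻¹ ≤ sSup Xs := by
    apply le_of_forall_pos_le_add
    intro ε hε
    apply le_of_tendsto_of_frequently h3 (freq_low ε hε)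
  have h5 : sSup Ys ≤ ρ⁻¹ := by
    apply le_of_forall_pos_le_add
    intro ε hε
    have := ge_of_tendsto_of_frequently h3 (freq_high ε hε)
    linarith
  exact le_antisymm lam_le_Lam (h5.trans h4)

theorem f_zmod_one : f (ZMod 1) = 1 := by
  obtain ⟨S, hS, hSc⟩ := exists_extremal (G := ZMod 1)
  have h0 := zero_notMem hS
  have : S = ∅ := by
    rw [Finset.eq_empty_iff_forall_notMem]
    intro x hx
    have : x = 0 := Subsingleton.elim _ _
    rw [this] at hx
    exact h0 hx
  rw [this, Finset.card_empty] at hSc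
  omega

theorem f_zmod_le_lam (n : ℕ) (hn : 1 ≤ n) : (f (ZMod n) : ℝ) - 1 ≤ sSup Xs * Real.log n := by
  rcases Nat.lt_or_ge n 2 with h | h
  · have : n = 1 := by omega
    subst this
    rw [f_zmod_one]
    simp
  · have h2 : ((f (ZMod n) : ℝ) - 1) / Real.log n ≤ sSup Xs := le_csSup Xs_bdd ⟨n, h, rfl⟩
    rwa [div_le_iff₀ (log_pos_of n h)] at h2

theorem rank_bound {r : ℕ} (m : Fin r → ℕ) (hm : ∀ i, 1 ≤ m i)
    (S : Finset (∀ i, ZMod (m i))) (hS : ¬ HasTriple S) :
    (S.card : ℝ) ≤ sSup Xs * (Real.log (∏ i, (m i : ℝ)) + r * Real.log S.card) := by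
  have hpos : 0 < sSup Xs := lt_of_lt_of_le (by have := log32_pos; positivity) lam_ge
  have hP1 : 1 ≤ ∏ i, m i := Nat.one_le_iff_ne_zero.2 (by
    rw [Finset.prod_ne_zero_iff]
    intro i _
    have := hm i
    omega)
  have hprod : (1 : ℝ) ≤ ∏ i, (m i : ℝ) := by
    have h : (1 : ℝ) ≤ ((∏ i, m i : ℕ) : ℝ) := by exact_mod_cast hP1
    rwa [Nat.cast_prod] at h
  rcases Nat.eq_zero_or_pos S.card with h0 | hk
  · rw [h0, Nat.cast_zero, Real.log_zero, mul_zero, add_zero]
    exact mul_nonneg hpos.le (Real.log_nonneg hprod)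
  · have hn : 1 ≤ S.card ^ r * ∏ i, m i := Nat.mul_pos (Nat.pow_pos hk) hP1
    have h1 := product_to_zmod m hm S hS hk _ le_rfl
    have h2 := f_zmod_le_lam _ hn
    have h3 : ((S.card + 1 : ℕ) : ℝ) ≤ (f (ZMod (S.card ^ r * ∏ i, m i)) : ℝ) := by
      exact_mod_cast h1
    push_cast at h2 h3
    have hk0 : (0 : ℝ) < S.card := by exact_mod_cast hk
    rw [Real.log_mul (by positivity) (by linarith), Real.log_pow] at h2
    have h4 : Real.log (∏ i, (m i : ℝ)) + r * Real.log S.card =
        r * Real.log S.card + Real.log (∏ i, (m i : ℝ)) := by ring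
    rw [h4]
    linarith

end Pool.Agent.Lib.RHO6
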