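import Pool.Agent.Lib.RHO6.C

/-!
# Groups with few cyclic factors
-/

set_option autoImplicit false

open Finset Filter Topology

namespace Pool.Agent.Lib.RHO6

open Pool.Agent.Results.MP_5a799b_co.LogBounds

theorem lam_pos : 0 < sSup Xs := lt_of_lt_of_le (by have := log32_pos; positivity) lam_ge

theorem finite_pi {r : ℕ} (m : Fin r → ℕ) (hm : ∀ i, 1 ≤ m i) : Finite (∀ i, ZMod (m i)) := by
  have : ∀ i, NeZero (m i) := fun i => ⟨by have := hm i; omega⟩
  infer_instance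

theorem card_pi {r : ℕ} (m : Fin r → ℕ) : Nat.card (∀ i, ZMod (m i)) = ∏ i, m i := by
  rw [Nat.card_pi]
  exact Finset.prod_congr rfl fun i _ => Nat.card_zmod _

theorem f_zmod_lower (ε : ℝ) (hε : 0 < ε) : ∃ C : ℝ, 0 ≤ C ∧ ∀ n : ℕ, 1 ≤ n →
    (sSup Xs - ε) * Real.log n - C ≤ (f (ZMod n) : ℝ) := by
  have h1 := tendsto_cyclic.eventually (lt_mem_nhds (by linarith : sSup Xs - ε < sSup Xs))
  rw [eventually_atTop] at h1
  obtain ⟨N, hN⟩ := h1
  have hl := lam_pos
  have hN1 : 0 ≤ Real.log ((N + 2 : ℕ) : ℝ) := Real.log_natCast_nonneg _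
  refine ⟨sSup Xs * Real.log ((N + 2 : ℕ) : ℝ), mul_nonneg hl.le hN1, ?_⟩
  intro n hn
  rcases Nat.lt_or_ge n (N + 2) with h | h
  · have h2 : Real.log n ≤ Real.log ((N + 2 : ℕ) : ℝ) := by
      apply Real.log_le_log
      · exact_mod_cast hn
      · exact_mod_cast h.le
    have h3 : 0 ≤ Real.log (n : ℝ) := Real.log_natCast_nonneg _
    have h4 : (0 : ℝ) ≤ (f (ZMod n) : ℝ) := Nat.cast_nonneg _
    nlinarith
  · have h2 := hN n (by omega)
    have h3 := log_pos_of n (by omega)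
    rw [lt_div_iff₀ h3] at h2
    have h4 : 0 ≤ sSup Xs * Real.log ((N + 2 : ℕ) : ℝ) := mul_nonneg hl.le hN1
    linarith

theorem f_pi_succ {r : ℕ} (m : Fin (r + 1) → ℕ) (hm : ∀ i, 1 ≤ m i) :
    f (ZMod (m 0)) + f (∀ i : Fin r, ZMod (m i.succ)) ≤ f (∀ i, ZMod (m i)) + 1 := by
  have h0 : NeZero (m 0) := ⟨by have := hm 0; omega⟩
  have h1 : Finite (∀ i : Fin r, ZMod (m i.succ)) := finite_pi _ fun i => hm i.succ
  have h2 : Finite (∀ i, ZMod (m i)) := finite_pi m hm
  have h3 := f_prod (ZMod (m 0)) (∀ i : Fin r, ZMod (m i.succ))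
  have e : (ZMod (m 0) × (∀ i : Fin r, ZMod (m i.succ))) ≃+ (∀ i, ZMod (m i)) :=
    { Fin.consEquiv (fun i => ZMod (m i)) with
      map_add' := by
        intro x y
        funext i
        refine Fin.cases ?_ (fun j => ?_) i
        · rfl
        · rfl }
  have h4 := f_le_of_equiv e
  omega

theorem f_pi_lower (ε : ℝ) (hε : 0 < ε) : ∃ C : ℝ, 0 ≤ C ∧ ∀ (r : ℕ) (m : Fin r → ℕ),
    (∀ i, 1 ≤ m i) →
    (sSup Xs - ε) * Real.log (∏ i, (m i : ℝ)) - r * C ≤ (f (∀ i, ZMod (m i)) : ℝ) := by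
  obtain ⟨C, hC0, hC⟩ := f_zmod_lower ε hε
  refine ⟨C + 1, by linarith, ?_⟩
  intro r
  induction r with
  | zero =>
    intro m _
    simp
  | succ r ih =>
    intro m hm
    have h1 := ih (fun i => m i.succ) (fun i => hm i.succ)
    have h2 := hC (m 0) (hm 0)
    have h3 : ((f (ZMod (m 0)) + f (∀ i : Fin r, ZMod (m i.succ)) : ℕ) : ℝ) ≤
        ((f (∀ i, ZMod (m i)) + 1 : ℕ) : ℝ) := by exact_mod_cast f_pi_succ m hm
    push_cast at h3
    rw [Fin.prod_univ_succ, Real.log_mul]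
    · push_cast
      nlinarith
    · have := hm 0
      have : (0 : ℝ) < m 0 := by exact_mod_cast this
      exact this.ne'
    · rw [Finset.prod_ne_zero_iff]
      intro i _
      have := hm i.succ
      have : (0 : ℝ) < m i.succ := by exact_mod_cast this
      exact this.ne'

theorem small_rank (ε : ℝ) (hε : 0 < ε) : ∃ δ : ℝ, 0 < δ ∧ ∃ N : ℕ,
    ∀ (r : ℕ) (m : Fin r → ℕ), (∀ i, 1 ≤ m i) → N ≤ ∏ i, m i →
    (r : ℝ) * Real.log (Real.log (∏ i, (m i : ℝ))) ≤ δ * Real.log (∏ i, (m i : ℝ)) →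
    |(f (∀ i, ZMod (m i)) : ℝ) / Real.log (∏ i, (m i : ℝ)) - sSup Xs| ≤ ε := by
  obtain ⟨C, hC0, hC⟩ := f_pi_lower (ε / 2) (by linarith)
  have hl := lam_pos
  have h32 := log32_pos
  have hA1 : 0 < ε / (4 * sSup Xs) := by positivity
  have hA2 : 0 < ε / (2 * (C + 1)) := by positivity
  refine ⟨min (ε / (4 * sSup Xs)) (ε / (2 * (C + 1))), lt_min hA1 hA2,
    ⌈Real.exp (max (2 / Real.log (3 / 2)) (max (Real.exp 1) (2 / ε)))⌉₊, ?_⟩
  intro r m hm hN hr
  have hfin := finite_pi m hm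
  have hcast : ((∏ i, m i : ℕ) : ℝ) = ∏ i, (m i : ℝ) := Nat.cast_prod _ _
  have hexp : Real.exp (max (2 / Real.log (3 / 2)) (max (Real.exp 1) (2 / ε))) ≤
      ∏ i, (m i : ℝ) := by
    rw [← hcast]
    exact (Nat.le_ceil _).trans (by exact_mod_cast hN)
  have hP0 : 0 < ∏ i, (m i : ℝ) := lt_of_lt_of_le (Real.exp_pos _) hexp
  have hL : max (2 / Real.log (3 / 2)) (max (Real.exp 1) (2 / ε)) ≤
      Real.log (∏ i, (m i : ℝ)) := (Real.le_log_iff_exp_le hP0).2 hexp
  set L : ℝ := Real.log (∏ i, (m i : ℝ)) with hLdef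
  have hL1 : 2 / Real.log (3 / 2) ≤ L := (le_max_left _ _).trans hL
  have hL2 : Real.exp 1 ≤ L := ((le_max_left _ _).trans (le_max_right _ _)).trans hL
  have hL3 : 2 / ε ≤ L := ((le_max_right _ _).trans (le_max_right _ _)).trans hL
  have hL0 : 0 < L := lt_of_lt_of_le (Real.exp_pos _) hL2
  have hLL1 : 1 ≤ Real.log L := (Real.le_log_iff_exp_le hL0).2 hL2
  have hLL2 : Real.log (2 / Real.log (3 / 2)) ≤ Real.log L :=
    Real.log_le_log (by positivity) hL1
  have hone : 1 ≤ ε / 2 * L := by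
    rw [div_le_iff₀ hε] at hL3
    linarith
  have hr0 : (0 : ℝ) ≤ r := Nat.cast_nonneg r
  have hr1 : (r : ℝ) * Real.log L ≤ ε / (4 * sSup Xs) * L :=
    hr.trans (mul_le_mul_of_nonneg_right (min_le_left _ _) hL0.le)
  have hr2 : (r : ℝ) * Real.log L ≤ ε / (2 * (C + 1)) * L :=
    hr.trans (mul_le_mul_of_nonneg_right (min_le_right _ _) hL0.le)
  -- the lower bound
  have hlow : (sSup Xs - ε) * L ≤ (f (∀ i, ZMod (m i)) : ℝ) := by
    have h1 := hC r m hm
    rw [← hLdef] at h1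
    have h2 : (r : ℝ) * C ≤ ε / 2 * L := by
      have h3 : (r : ℝ) * C ≤ (r * Real.log L) * (C + 1) := by nlinarith [mul_nonneg hr0 hC0]
      have h4 : (r * Real.log L) * (C + 1) ≤ ε / (2 * (C + 1)) * L * (C + 1) :=
        mul_le_mul_of_nonneg_right hr2 (by linarith)
      have h5 : ε / (2 * (C + 1)) * L * (C + 1) = ε / 2 * L := by
        field_simp
      linarith
    linarith
  -- the upper bound
  have hup : (f (∀ i, ZMod (m i)) : ℝ) ≤ (sSup Xs + ε) * L := by
    obtain ⟨S, hS, hSc⟩ := exists_extremal (G := ∀ i, ZMod (m i))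
    have hfS : (f (∀ i, ZMod (m i)) : ℝ) = S.card + 1 := by exact_mod_cast hSc.symm
    rw [hfS]
    rcases Nat.eq_zero_or_pos S.card with h0 | hk
    · rw [h0, Nat.cast_zero, zero_add]
      nlinarith [mul_pos hl hL0]
    · have hk0 : (0 : ℝ) < S.card := by exact_mod_cast hk
      have h1 := rank_bound m hm S hS
      rw [← hLdef] at h1
      have h2 := f_le (G := ∀ i, ZMod (m i))
      rw [card_pi, hcast, ← hLdef, hfS] at h2
      have h3 : (S.card : ℝ) ≤ 2 / Real.log (3 / 2) * L := by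
        have : 2 / Real.log (3 / 2) * L = 2 * L / Real.log (3 / 2) := by ring
        rw [this]
        linarith
      have h4 : Real.log S.card ≤ 2 * Real.log L := by
        have h5 := Real.log_le_log hk0 h3
        rw [Real.log_mul (by positivity) hL0.ne'] at h5
        linarith
      have h6 : (r : ℝ) * Real.log S.card ≤ ε / (2 * sSup Xs) * L := by
        have h7 : (r : ℝ) * Real.log S.card ≤ r * (2 * Real.log L) :=
          mul_le_mul_of_nonneg_left h4 hr0
        have h8 : ε / (2 * sSup Xs) * L = 2 * (ε / (4 * sSup Xs) * L) := by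
          field_simp
          ring
        rw [h8]
        linarith
      have h9 : sSup Xs * (ε / (2 * sSup Xs) * L) = ε / 2 * L := by
        field_simp
      have h10 : sSup Xs * (L + r * Real.log S.card) ≤ sSup Xs * (L + ε / (2 * sSup Xs) * L) :=
        mul_le_mul_of_nonneg_left (by linarith) hl.le
      rw [mul_add (sSup Xs) L (ε / (2 * sSup Xs) * L), h9] at h10
      linarith
  rw [abs_le]
  constructor
  · rw [le_sub_iff_add_le, le_div_iff₀ hL0]
    linarith
  · rw [sub_le_iff_le_add, div_le_iff₀ hL0]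
    linarith

end Pool.Agent.Lib.RHO6
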