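import Pool.Agent.Lib.RHO6.D

/-!
# Orders with small prime exponents
-/

set_option autoImplicit false

open Finset Filter Topology

namespace Pool.Agent.Lib.RHO6

open Pool.Agent.Results.MP_5a799b_co.LogBounds

/-- splitting a product along a colouring -/
def splitPi {ι κ : Type} (M : ι → Type) [∀ i, AddCommGroup (M i)] (c : ι → κ) :
    (∀ i, M i) ≃+ (∀ j, ∀ i : {i // c i = j}, M i.1) where
  toFun x := fun _ i => x i.1
  invFun y := fun i => y (c i) ⟨i, rfl⟩
  left_inv _ := rfl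
  right_inv y := by
    funext j
    funext ⟨i, hi⟩
    subst hi
    rfl
  map_add' _ _ := rfl

/-- `a` cyclic factors suffice if no prime exponent of the order exceeds `a` -/
theorem exists_pi_fin (G : Type) [AddCommGroup G] [Finite G] (a : ℕ) (ha1 : 1 ≤ a)
    (ha : ∀ p b : ℕ, p.Prime → p ^ b ∣ Nat.card G → b ≤ a) :
    ∃ m : Fin a → ℕ, (∀ j, 1 ≤ m j) ∧ ∏ j, m j = Nat.card G ∧
      Nonempty (G ≃+ ∀ j, ZMod (m j)) := by
  classical
  obtain ⟨ι, hι, p, hp, e, ⟨E⟩⟩ := AddCommGroup.equiv_directSum_zmod_of_finite G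
  have hne : ∀ i, NeZero (p i ^ e i) := fun i => ⟨pow_ne_zero _ (hp i).ne_zero⟩
  set E1 : G ≃+ ∀ i, ZMod (p i ^ e i) :=
    E.trans (DirectSum.addEquivProd (fun i => ZMod (p i ^ e i))) with hE1
  have hcard : Nat.card G = ∏ i, p i ^ e i := by
    rw [Nat.card_congr E1.toEquiv, Nat.card_pi]
    exact Finset.prod_congr rfl fun i _ => Nat.card_zmod _
  have hI : ∀ q : ℕ, (Finset.univ.filter (fun i => p i = q ∧ 1 ≤ e i)).card ≤ a := by
    intro q
    set I := Finset.univ.filter (fun i => p i = q ∧ 1 ≤ e i) with hIdef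
    rcases I.eq_empty_or_nonempty with h0 | ⟨i0, hi0⟩
    · rw [h0, Finset.card_empty]
      omega
    · have hq : q.Prime := by
        rw [hIdef, Finset.mem_filter] at hi0
        rw [← hi0.2.1]
        exact hp i0
      apply ha q _ hq
      rw [hcard]
      have h1 : ∏ i ∈ I, q ∣ ∏ i ∈ I, p i ^ e i := by
        apply Finset.prod_dvd_prod_of_dvd
        intro i hi
        rw [hIdef, Finset.mem_filter] at hi
        rw [hi.2.1]
        exact dvd_pow_self q (by omega)
      rw [Finset.prod_const] at h1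
      exact h1.trans (Finset.prod_dvd_prod_of_subset _ _ _ (Finset.subset_univ _))
  have hg : ∀ q : ℕ, ∃ g : ι → Fin a, ∀ i i', p i = q → p i' = q → 1 ≤ e i → 1 ≤ e i' →
      g i = g i' → i = i' := by
    intro q
    have hJ := hI q
    set J : Finset ι := Finset.univ.filter (fun i => p i = q ∧ 1 ≤ e i) with hJdef
    have h1 : Fintype.card J ≤ Fintype.card (Fin a) := by
      rw [Fintype.card_coe, Fintype.card_fin]
      exact hJ
    obtain ⟨emb⟩ := Function.Embedding.nonempty_of_card_le h1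
    refine ⟨fun i => if h : i ∈ J then emb ⟨i, h⟩ else ⟨0, ha1⟩, ?_⟩
    intro i i' h2 h3 h4 h5 h6
    have m1 : i ∈ J := by
      rw [hJdef, Finset.mem_filter]
      exact ⟨Finset.mem_univ _, h2, h4⟩
    have m2 : i' ∈ J := by
      rw [hJdef, Finset.mem_filter]
      exact ⟨Finset.mem_univ _, h3, h5⟩
    simp only [dif_pos m1, dif_pos m2] at h6
    have := emb.injective h6
    exact congrArg Subtype.val this
  choose g hgs using hg
  set c : ι → Fin a := fun i => g (p i) i with hc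
  have hcop : ∀ j : Fin a, Pairwise (Function.onFun Nat.Coprime
      (fun i : {i // c i = j} => p i.1 ^ e i.1)) := by
    intro j ⟨i, hi⟩ ⟨i', hi'⟩ hii
    show Nat.Coprime (p i ^ e i) (p i' ^ e i')
    rcases Nat.eq_zero_or_pos (e i) with h0 | h0
    · rw [h0, pow_zero]
      exact Nat.coprime_one_left _
    rcases Nat.eq_zero_or_pos (e i') with h0' | h0'
    · rw [h0', pow_zero]
      exact Nat.coprime_one_right _
    by_cases hpp : p i = p i'
    · exfalso
      apply hii
      rw [Subtype.mk.injEq]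
      apply hgs (p i') i i' hpp rfl h0 h0'
      rw [← hi'] at hi
      have h7 : g (p i) i = g (p i') i' := hi
      rwa [hpp] at h7
    · exact Nat.Coprime.pow _ _ ((Nat.coprime_primes (hp i) (hp i')).2 hpp)
  set m : Fin a → ℕ := fun j => ∏ i : {i // c i = j}, p i.1 ^ e i.1 with hm
  have hm1 : ∀ j, 1 ≤ m j := by
    intro j
    apply Nat.one_le_iff_ne_zero.2
    rw [hm]
    simp only
    rw [Finset.prod_ne_zero_iff]
    intro i _
    exact pow_ne_zero _ (hp i.1).ne_zero
  have E2 : (∀ i, ZMod (p i ^ e i)) ≃+ ∀ j, ZMod (m j) :=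
    (splitPi (fun i => ZMod (p i ^ e i)) c).trans
      (AddEquiv.piCongrRight fun j => (ZMod.prodEquivPi _ (hcop j)).toAddEquiv.symm)
  refine ⟨m, hm1, ?_, ⟨E1.trans E2⟩⟩
  rw [← card_pi, Nat.card_congr (E1.trans E2).toEquiv]

/-- orders whose prime exponents are small -/
theorem small_exponents (ε : ℝ) (hε : 0 < ε) : ∃ δ : ℝ, 0 < δ ∧ ∃ N : ℕ, ∀ n a : ℕ, N ≤ n →
    (∀ p b : ℕ, p.Prime → p ^ b ∣ n → b ≤ a) →
    (a : ℝ) * Real.log (Real.log n) ≤ δ * Real.log n →
    |(F n : ℝ) / Real.log n - sSup Xs| ≤ ε := by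
  obtain ⟨δ, hδ, N, h⟩ := small_rank ε hε
  refine ⟨δ, hδ, N + 2, ?_⟩
  intro n a hn ha hle
  obtain ⟨G, inst, hG, hf⟩ := (F_set n (by omega)).2
  have : Finite G := Nat.finite_of_card_ne_zero (by omega)
  have ha1 : 1 ≤ a := by
    obtain ⟨p, hp, hpn⟩ := Nat.exists_prime_and_dvd (show n ≠ 1 by omega)
    exact ha p 1 hp (by rwa [pow_one])
  obtain ⟨m, hm1, hm2, ⟨E⟩⟩ := exists_pi_fin G a ha1 (by rw [hG]; exact ha)
  have hfin := finite_pi m hm1
  have hfe : f (∀ j, ZMod (m j)) = F n := by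
    rw [← hf]
    exact le_antisymm (f_le_of_equiv E.symm) (f_le_of_equiv E)
  have hcast : ∏ i, (m i : ℝ) = (n : ℝ) := by
    rw [← Nat.cast_prod, hm2, hG]
  have h1 := h a m hm1 (by rw [hm2, hG]; omega) (by rw [hcast]; exact hle)
  rwa [hcast, hfe] at h1

/-- orders not divisible by a power `p ^ (a + 1)` of a prime -/
theorem tendsto_power_free (a : ℕ) : Tendsto (fun n : ℕ => (F n : ℝ) / Real.log n)
    (atTop ⊓ 𝓟 {n : ℕ | ∀ p b : ℕ, p.Prime → p ^ b ∣ n → b ≤ a}) (𝓝 (sSup Xs)) := by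
  rw [Metric.tendsto_nhds]
  intro ε hε
  rw [Filter.eventually_inf_principal]
  obtain ⟨δ, hδ, N, h⟩ := small_exponents (ε / 2) (by linarith)
  have h1 : Tendsto (fun n : ℕ => (a : ℝ) * (Real.log (Real.log n) / Real.log n)) atTop
      (𝓝 ((a : ℝ) * 0)) := by
    have h2 : Tendsto (fun x : ℝ => Real.log x / x) atTop (𝓝 0) := by
      have := Real.isLittleO_log_id_atTop.tendsto_div_nhds_zero
      exact this
    exact ((h2.comp (Real.tendsto_log_atTop.comp tendsto_natCast_atTop_atTop)).const_mul _)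
  rw [mul_zero] at h1
  filter_upwards [h1.eventually (gt_mem_nhds hδ), eventually_ge_atTop (N + 2)] with n h2 hn h3
  have hln := log_pos_of n (by omega)
  have h4 := h n a (by omega) h3 (by
    have h5 : (a : ℝ) * (Real.log (Real.log n) / Real.log n) * Real.log n ≤ δ * Real.log n :=
      mul_le_mul_of_nonneg_right h2.le hln.le
    have h6 : (a : ℝ) * (Real.log (Real.log n) / Real.log n) * Real.log n =
        a * Real.log (Real.log n) := by
      field_simp
    rwa [h6] at h5)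
  rw [Real.dist_eq]
  linarith

theorem tendsto_power_free_inv (a : ℕ) : Tendsto (fun n : ℕ => Real.log n / (F n : ℝ))
    (atTop ⊓ 𝓟 {n : ℕ | ∀ p b : ℕ, p.Prime → p ^ b ∣ n → b ≤ a}) (𝓝 (1 / sSup Xs)) := by
  rw [one_div]
  refine ((tendsto_power_free a).inv₀ lam_pos.ne').congr ?_
  intro n
  rw [inv_div]

end Pool.Agent.Lib.RHO6
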