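import Pool.Agent.Lib.RHO6.E

/-!
# No group beats the cyclic groups
-/

set_option autoImplicit false

open Finset Filter Topology

namespace Pool.Agent.Lib.RHO6

open Pool.Agent.Results.MP_5a799b_co.LogBounds

theorem f_le_of_injective {G K : Type} [AddCommGroup G] [AddCommGroup K] [Finite G] [Finite K]
    (φ : G →+ K) (hφ : Function.Injective φ) : f G ≤ f K := by
  classical
  obtain ⟨S, hS, hSc⟩ := exists_extremal (G := G)
  have h1 := lt_f _ (map_no_triple φ hφ hS)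
  rw [Finset.card_image_of_injective _ hφ] at h1
  omega

/-- multiplication by `m` -/
theorem exists_mul_hom (m a : ℕ) (hm : 1 ≤ m) :
    ∃ ψ : ZMod (m ^ a) →+ ZMod (m ^ (a + 1)), Function.Injective ψ ∧
      ∀ z : ℤ, ψ (z : ZMod (m ^ a)) = (((m : ℤ) * z : ℤ) : ZMod (m ^ (a + 1))) := by
  have hne : NeZero (m ^ (a + 1)) := ⟨pow_ne_zero _ (by omega)⟩
  have hne' : NeZero (m ^ a) := ⟨pow_ne_zero _ (by omega)⟩
  set g : ℤ →+ ZMod (m ^ (a + 1)) :=
    (Int.castAddHom (ZMod (m ^ (a + 1)))).comp (AddMonoidHom.mulLeft (m : ℤ)) with hg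
  have hgz : ∀ z : ℤ, g z = (((m : ℤ) * z : ℤ) : ZMod (m ^ (a + 1))) := fun z => rfl
  have hg0 : g ((m ^ a : ℕ) : ℤ) = 0 := by
    rw [hgz]
    have h1 : (m : ℤ) * ((m ^ a : ℕ) : ℤ) = ((m ^ (a + 1) : ℕ) : ℤ) := by
      push_cast
      ring
    rw [h1, Int.cast_natCast, ZMod.natCast_self]
  have hψ : ∀ z : ℤ, ZMod.lift (m ^ a) ⟨g, hg0⟩ (z : ZMod (m ^ a)) =
      (((m : ℤ) * z : ℤ) : ZMod (m ^ (a + 1))) := by
    intro z
    rw [ZMod.lift_coe]
    exact hgz z
  refine ⟨ZMod.lift (m ^ a) ⟨g, hg0⟩, ?_, hψ⟩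
  rw [injective_iff_map_eq_zero]
  intro x hx
  obtain ⟨z, rfl⟩ := ZMod.intCast_surjective x
  rw [hψ, ZMod.intCast_zmod_eq_zero_iff_dvd] at hx
  rw [ZMod.intCast_zmod_eq_zero_iff_dvd]
  have h2 : ((m ^ (a + 1) : ℕ) : ℤ) = (m : ℤ) * ((m ^ a : ℕ) : ℤ) := by
    push_cast
    ring
  rw [h2] at hx
  exact (mul_dvd_mul_iff_left (by exact_mod_cast (by omega : m ≠ 0))).1 hx

theorem pow_one_le {r : ℕ} {m : Fin r → ℕ} (hm : ∀ i, 1 ≤ m i) (a : ℕ) :
    ∀ i, 1 ≤ m i ^ a := fun i => Nat.one_le_pow _ _ (hm i)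

theorem f_tower_step {r : ℕ} (m : Fin r → ℕ) (hm : ∀ i, 1 ≤ m i) (a : ℕ) :
    f (∀ i, ZMod (m i ^ a)) + f (∀ i, ZMod (m i)) ≤ f (∀ i, ZMod (m i ^ (a + 1))) + 1 := by
  have hf0 := finite_pi m hm
  have hf1 := finite_pi (fun i => m i ^ a) (pow_one_le hm a)
  have hf2 := finite_pi (fun i => m i ^ (a + 1)) (pow_one_le hm (a + 1))
  choose ψ hψi hψz using fun i => exists_mul_hom (m i) a (hm i)
  set Ψ : (∀ i, ZMod (m i ^ a)) →+ (∀ i, ZMod (m i ^ (a + 1))) :=
    AddMonoidHom.mk' (fun x i => ψ i (x i)) (fun x y => by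
      funext i
      exact map_add (ψ i) (x i) (y i)) with hΨ
  have hΨi : Function.Injective Ψ := by
    intro x y hxy
    funext i
    exact hψi i (congrFun hxy i)
  have hdvd : ∀ i, m i ∣ m i ^ (a + 1) := fun i => dvd_pow_self _ (Nat.succ_ne_zero a)
  set Φ : (∀ i, ZMod (m i ^ (a + 1))) →+ (∀ i, ZMod (m i)) :=
    AddMonoidHom.mk' (fun x i => ZMod.castHom (hdvd i) (ZMod (m i)) (x i)) (fun x y => by
      funext i
      exact map_add (ZMod.castHom (hdvd i) (ZMod (m i))) (x i) (y i)) with hΦ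
  have hΦs : Function.Surjective Φ := by
    intro y
    have : ∀ i, ∃ x, ZMod.castHom (hdvd i) (ZMod (m i)) x = y i := fun i =>
      ZMod.castHom_surjective (hdvd i) (y i)
    choose x hx using this
    exact ⟨x, funext hx⟩
  have hzero : ∀ x, Φ (Ψ x) = 0 := by
    intro x
    funext i
    show ZMod.castHom (hdvd i) (ZMod (m i)) (ψ i (x i)) = 0
    obtain ⟨z, hz⟩ := ZMod.intCast_surjective (x i)
    rw [← hz, hψz, map_intCast]
    push_cast
    rw [ZMod.natCast_self, zero_mul]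
  have h1 := f_extension Φ.ker
  have h2 : f (∀ i, ZMod (m i ^ a)) ≤ f Φ.ker := by
    apply f_le_of_injective (Ψ.codRestrict Φ.ker (fun x => (AddMonoidHom.mem_ker).2 (hzero x)))
    intro x y hxy
    apply hΨi
    exact congrArg Subtype.val hxy
  have h3 : f (∀ i, ZMod (m i)) ≤ f ((∀ i, ZMod (m i ^ (a + 1))) ⧸ Φ.ker) :=
    f_le_of_equiv (QuotientAddGroup.quotientKerEquivOfSurjective Φ hΦs).symm
  omega

theorem f_tower {r : ℕ} (m : Fin r → ℕ) (hm : ∀ i, 1 ≤ m i) (N : ℕ) :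
    N * (f (∀ i, ZMod (m i)) - 1) + 1 ≤ f (∀ i, ZMod (m i ^ N)) := by
  induction N with
  | zero =>
    have := finite_pi (fun i => m i ^ 0) (pow_one_le hm 0)
    have h : 1 ≤ f (∀ i, ZMod (m i ^ 0)) := f_pos
    rw [Nat.zero_mul]
    exact h
  | succ N ih =>
    have h1 := f_tower_step m hm N
    have h2 := finite_pi m hm
    have h3 : 1 ≤ f (∀ i, ZMod (m i)) := f_pos
    rw [Nat.succ_mul]
    omega

theorem f_pi_le_lam {r : ℕ} (m : Fin r → ℕ) (hm : ∀ i, 1 ≤ m i) :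
    (f (∀ i, ZMod (m i)) : ℝ) - 1 ≤ sSup Xs * Real.log (∏ i, (m i : ℝ)) := by
  have hl := lam_pos
  have h32 := log32_pos
  have hfin := finite_pi m hm
  have hf1 : 1 ≤ f (∀ i, ZMod (m i)) := f_pos
  have hP1 : 1 ≤ ∏ i, m i := Nat.one_le_iff_ne_zero.2 (by
    rw [Finset.prod_ne_zero_iff]
    intro i _
    have := hm i
    omega)
  have hP1r : (1 : ℝ) ≤ ∏ i, (m i : ℝ) := by
    have h : (1 : ℝ) ≤ ((∏ i, m i : ℕ) : ℝ) := by exact_mod_cast hP1
    rwa [Nat.cast_prod] at h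
  set L : ℝ := Real.log (∏ i, (m i : ℝ)) with hL
  have hL0 : 0 ≤ L := Real.log_nonneg hP1r
  obtain ⟨k, hk⟩ : ∃ k, f (∀ i, ZMod (m i)) = k + 1 := ⟨f (∀ i, ZMod (m i)) - 1, by omega⟩
  rw [hk]
  push_cast
  rw [add_sub_cancel_right]
  rcases Nat.eq_zero_or_pos k with h0 | hkpos
  · rw [h0, Nat.cast_zero]
    positivity
  have key : ∀ N : ℕ, 1 ≤ N → (k : ℝ) ≤ sSup Xs * L +
      sSup Xs * r * (Real.log N / N + Real.log (2 * L / Real.log (3 / 2)) / N) := by
    intro N hN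
    have hNr : (0 : ℝ) < N := by exact_mod_cast hN
    have hfinN := finite_pi (fun i => m i ^ N) (pow_one_le hm N)
    obtain ⟨S, hS, hSc⟩ := exists_extremal (G := ∀ i, ZMod (m i ^ N))
    have h1 := f_tower m hm N
    rw [hk, Nat.add_sub_cancel, ← hSc] at h1
    have h2 : (N : ℝ) * k ≤ S.card := by
      have : N * k ≤ S.card := by omega
      exact_mod_cast this
    have hlogN : Real.log (∏ i, ((m i ^ N : ℕ) : ℝ)) = N * L := by
      rw [hL, ← Real.log_pow, ← Finset.prod_pow]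
      congr 1
      exact Finset.prod_congr rfl fun i _ => Nat.cast_pow _ _
    have h3 := rank_bound (fun i => m i ^ N) (pow_one_le hm N) S hS
    rw [hlogN] at h3
    have h4 := f_le (G := ∀ i, ZMod (m i ^ N))
    rw [card_pi (fun i => m i ^ N), Nat.cast_prod, hlogN, ← hSc] at h4
    push_cast at h4
    have hk1 : (1 : ℝ) ≤ k := by exact_mod_cast hkpos
    have hS0 : (0 : ℝ) < S.card := lt_of_lt_of_le (by positivity) h2
    have h5 : (S.card : ℝ) ≤ N * (2 * L / Real.log (3 / 2)) := by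
      have : (N : ℝ) * (2 * L / Real.log (3 / 2)) = 2 * (N * L) / Real.log (3 / 2) := by ring
      rw [this]
      linarith
    have h6 : 0 < 2 * L / Real.log (3 / 2) := by
      have : 0 < N * (2 * L / Real.log (3 / 2)) := lt_of_lt_of_le hS0 h5
      exact (mul_pos_iff_of_pos_left hNr).1 this
    have h7 : Real.log S.card ≤ Real.log N + Real.log (2 * L / Real.log (3 / 2)) := by
      have := Real.log_le_log hS0 h5
      rwa [Real.log_mul hNr.ne' h6.ne'] at this
    have hr0 : (0 : ℝ) ≤ r := Nat.cast_nonneg r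
    have h8 : (N : ℝ) * k ≤ sSup Xs *
        (N * L + r * (Real.log N + Real.log (2 * L / Real.log (3 / 2)))) := by
      refine h2.trans (h3.trans (mul_le_mul_of_nonneg_left ?_ hl.le))
      have := mul_le_mul_of_nonneg_left h7 hr0
      linarith
    have h9 : (k : ℝ) ≤ (sSup Xs *
        (N * L + r * (Real.log N + Real.log (2 * L / Real.log (3 / 2))))) / N := by
      rw [le_div_iff₀ hNr]
      linarith
    refine h9.trans (le_of_eq ?_)
    field_simp
  have hlim : Tendsto (fun N : ℕ => sSup Xs * L +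
      sSup Xs * r * (Real.log N / N + Real.log (2 * L / Real.log (3 / 2)) / N)) atTop
      (𝓝 (sSup Xs * L + sSup Xs * r * (0 + 0))) := by
    have h1 : Tendsto (fun N : ℕ => Real.log N / (N : ℝ)) atTop (𝓝 0) :=
      (Real.isLittleO_log_id_atTop.tendsto_div_nhds_zero).comp tendsto_natCast_atTop_atTop
    exact ((h1.add (tendsto_const_div_atTop_nhds_zero_nat _)).const_mul _).const_add _
  rw [add_zero, mul_zero, add_zero] at hlim
  exact ge_of_tendsto hlim (by
    filter_upwards [eventually_ge_atTop 1] with N hN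
    exact key N hN)

/-- every finite abelian group obeys the bound with the cyclic constant -/
theorem f_le_lam (G : Type) [AddCommGroup G] [Finite G] :
    (f G : ℝ) - 1 ≤ sSup Xs * Real.log (Nat.card G) := by
  have hcard : 0 < Nat.card G := Nat.card_pos
  obtain ⟨m, hm1, hm2, ⟨E⟩⟩ := exists_pi_fin G (Nat.card G) hcard (fun p b hp hb =>
    ((Nat.lt_pow_self hp.one_lt).le.trans (Nat.le_of_dvd hcard hb)))
  have hfin := finite_pi m hm1
  have hfe : f (∀ j, ZMod (m j)) = f G := le_antisymm (f_le_of_equiv E.symm) (f_le_of_equiv E)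
  have h := f_pi_le_lam m hm1
  rwa [hfe, ← Nat.cast_prod, hm2] at h

theorem F_le_lam (n : ℕ) (hn : 1 ≤ n) : (F n : ℝ) - 1 ≤ sSup Xs * Real.log n := by
  obtain ⟨G, inst, hG, hf⟩ := (F_set n hn).2
  have : Finite G := Nat.finite_of_card_ne_zero (by omega)
  have h := f_le_lam G
  rwa [hf, hG] at h

theorem Lam_eq : sSup Xs = sSup Ys := by
  refine le_antisymm lam_le_Lam (csSup_le Ys_ne ?_)
  rintro x ⟨n, hn, rfl⟩
  have h := F_le_lam n (by omega)
  rw [div_le_iff₀ (log_pos_of n hn)]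
  exact h

theorem tendsto_F : Tendsto (fun n : ℕ => (F n : ℝ) / Real.log n) atTop (𝓝 (sSup Xs)) := by
  have h := (tendsto_of_eq Lam_eq).inv₀ (one_div_pos.2 lam_pos).ne'
  rw [one_div, inv_inv] at h
  refine h.congr ?_
  intro n
  rw [inv_div]

end Pool.Agent.Lib.RHO6
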