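import Pool.Agent.Lib.RHO6.E

/-!
# Density
-/

set_option autoImplicit false

open Finset Filter Topology

namespace Pool.Agent.Lib.RHO6

open Pool.Agent.Results.MP_5a799b_co.LogBounds

/-- the integers up to `x` divisible by a high power of a prime -/
theorem count_powerful (c x : ℕ) :
    (((Finset.Ioc 0 x).filter (fun n => ∃ k ∈ Finset.Ioc 1 x, k ^ (c + 2) ∣ n)).card : ℝ) ≤
      (1 / 2 : ℝ) ^ c * x := by
  classical
  have h1 : (Finset.Ioc 0 x).filter (fun n => ∃ k ∈ Finset.Ioc 1 x, k ^ (c + 2) ∣ n) ⊆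
      (Finset.Ioc 1 x).biUnion (fun k => (Finset.Ioc 0 x).filter (fun n => k ^ (c + 2) ∣ n)) := by
    intro n hn
    rw [Finset.mem_filter] at hn
    obtain ⟨hn, k, hk, hd⟩ := hn
    rw [Finset.mem_biUnion]
    exact ⟨k, hk, Finset.mem_filter.2 ⟨hn, hd⟩⟩
  have h2 := (Finset.card_le_card h1).trans Finset.card_biUnion_le
  have h3 : (((Finset.Ioc 0 x).filter (fun n => ∃ k ∈ Finset.Ioc 1 x, k ^ (c + 2) ∣ n)).card : ℝ) ≤
      ∑ k ∈ Finset.Ioc 1 x, (1 / 2 : ℝ) ^ c * x * (((k : ℝ) ^ 2)⁻¹) := by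
    refine le_trans (Nat.cast_le.2 h2) ?_
    rw [Nat.cast_sum]
    apply Finset.sum_le_sum
    intro k hk
    rw [Finset.mem_Ioc] at hk
    rw [Nat.Ioc_filter_dvd_card_eq_div]
    have hk2 : (2 : ℝ) ≤ k := by exact_mod_cast hk.1
    have hk0 : (0 : ℝ) < k := by linarith
    have h4 : ((x / k ^ (c + 2) : ℕ) : ℝ) ≤ (x : ℝ) / (k : ℝ) ^ (c + 2) := by
      have := @Nat.cast_div_le ℝ _ _ _ x (k ^ (c + 2))
      rwa [Nat.cast_pow] at this
    refine h4.trans ?_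
    have h5 : (2 : ℝ) ^ c ≤ (k : ℝ) ^ c := pow_le_pow_left₀ (by norm_num) hk2 c
    have h6 : (x : ℝ) / (k : ℝ) ^ (c + 2) = x * ((k : ℝ) ^ c)⁻¹ * ((k : ℝ) ^ 2)⁻¹ := by
      rw [pow_add]
      field_simp
    rw [h6]
    have h7 : ((k : ℝ) ^ c)⁻¹ ≤ (1 / 2 : ℝ) ^ c := by
      rw [one_div, inv_pow]
      exact inv_anti₀ (by positivity) h5
    have h8 : (x : ℝ) * ((k : ℝ) ^ c)⁻¹ ≤ (1 / 2 : ℝ) ^ c * x := by
      rw [mul_comm]
      exact mul_le_mul_of_nonneg_right h7 (Nat.cast_nonneg x)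
    exact mul_le_mul_of_nonneg_right h8 (by positivity)
  rw [← Finset.mul_sum] at h3
  have h9 : ∑ k ∈ Finset.Ioc 1 x, (((k : ℝ) ^ 2)⁻¹) ≤ 1 := by
    rcases Nat.eq_zero_or_pos x with h | h
    · subst h
      simp
    · have := sum_Ioc_inv_sq_le_sub (α := ℝ) one_ne_zero (show 1 ≤ x from h)
      have h10 : (0 : ℝ) ≤ (x : ℝ)⁻¹ := by positivity
      rw [Nat.cast_one, inv_one] at this
      linarith
  have h11 : (0 : ℝ) ≤ (1 / 2 : ℝ) ^ c * x := by positivity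
  calc _ ≤ _ := h3
    _ ≤ (1 / 2 : ℝ) ^ c * x * 1 := mul_le_mul_of_nonneg_left h9 h11
    _ = _ := mul_one _

theorem density_one (ε : ℝ) (hε : 0 < ε) :
    Tendsto (fun x : ℕ =>
      ({n : ℕ | n ≤ x ∧ ε < |(F n : ℝ) / Real.log n - sSup Xs|}.ncard : ℝ) / x)
      atTop (𝓝 0) := by
  classical
  rw [Metric.tendsto_atTop]
  intro η hη
  obtain ⟨c, hc⟩ := exists_pow_lt_of_lt_one (show (0 : ℝ) < η / 2 by linarith)
    (show (1 / 2 : ℝ) < 1 by norm_num)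
  have h1 := tendsto_power_free (c + 1)
  rw [Metric.tendsto_nhds] at h1
  have h2 := h1 ε hε
  rw [Filter.eventually_inf_principal, Filter.eventually_atTop] at h2
  obtain ⟨N, hN⟩ := h2
  refine ⟨⌈2 * (N + 1 : ℝ) / η⌉₊ + 1, ?_⟩
  intro x hx
  have hx1 : 2 * (N + 1 : ℝ) / η < x := by
    have h3 := Nat.le_ceil (2 * (N + 1 : ℝ) / η)
    have h4 : ((⌈2 * (N + 1 : ℝ) / η⌉₊ + 1 : ℕ) : ℝ) ≤ x := by exact_mod_cast hx
    push_cast at h4
    linarith
  have hx0 : (0 : ℝ) < x := lt_of_le_of_lt (by positivity) hx1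
  have hsub : {n : ℕ | n ≤ x ∧ ε < |(F n : ℝ) / Real.log n - sSup Xs|} ⊆
      ((Finset.range (N + 1) ∪ (Finset.Ioc 0 x).filter
        (fun n => ∃ k ∈ Finset.Ioc 1 x, k ^ (c + 2) ∣ n) : Finset ℕ) : Set ℕ) := by
    rintro n ⟨hnx, hn⟩
    rw [Finset.coe_union]
    by_cases hnN : n < N + 1
    · exact Or.inl (by exact_mod_cast Finset.mem_range.2 hnN)
    · right
      have hnot : ¬ ∀ p b : ℕ, p.Prime → p ^ b ∣ n → b ≤ c + 1 := by
        intro hall
        have h5 := hN n (by omega) hall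
        rw [Real.dist_eq] at h5
        linarith
      simp only [not_forall] at hnot
      obtain ⟨p, b, hp, hpb, hb⟩ := hnot
      have hn0 : 0 < n := by omega
      have hd : p ^ (c + 2) ∣ n := (pow_dvd_pow p (by omega)).trans hpb
      have hpx : p ≤ x := by
        have h6 : p ≤ p ^ (c + 2) := Nat.le_self_pow (by omega) p
        exact h6.trans ((Nat.le_of_dvd hn0 hd).trans hnx)
      rw [Finset.mem_coe, Finset.mem_filter, Finset.mem_Ioc]
      exact ⟨⟨hn0, hnx⟩, p, Finset.mem_Ioc.2 ⟨hp.one_lt, hpx⟩, hd⟩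
  have hcard : ({n : ℕ | n ≤ x ∧ ε < |(F n : ℝ) / Real.log n - sSup Xs|}.ncard : ℝ) ≤
      (N + 1) + (1 / 2 : ℝ) ^ c * x := by
    have h7 := Set.ncard_le_ncard hsub (Finset.finite_toSet _)
    rw [Set.ncard_coe_finset] at h7
    have h8 := h7.trans (Finset.card_union_le _ _)
    rw [Finset.card_range] at h8
    have h9 : ({n : ℕ | n ≤ x ∧ ε < |(F n : ℝ) / Real.log n - sSup Xs|}.ncard : ℝ) ≤
        ((N + 1 + ((Finset.Ioc 0 x).filter
          (fun n => ∃ k ∈ Finset.Ioc 1 x, k ^ (c + 2) ∣ n)).card : ℕ) : ℝ) := by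
      exact_mod_cast h8
    push_cast at h9
    have h10 := count_powerful c x
    linarith
  rw [Real.dist_eq, sub_zero, abs_of_nonneg (by positivity), div_lt_iff₀ hx0]
  have h11 : (N + 1 : ℝ) < η / 2 * x := by
    rw [div_lt_iff₀ hη] at hx1
    linarith
  have h12 : (1 / 2 : ℝ) ^ c * x < η / 2 * x := mul_lt_mul_of_pos_right hc hx0
  linarith

end Pool.Agent.Lib.RHO6
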