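import Pool.Agent.Lib.RHO6.Full

/-!
# Sequences
-/

set_option autoImplicit false

open Finset Filter Topology

namespace Pool.Agent.Lib.RHO6

open Pool.Agent.Results.MP_5a799b_co.LogBounds

/-- the elements of the large group -/
def seqElt {G : Type} [AddCommGroup G] {k N : ℕ} (s : Fin k → G) (p : Fin N × Fin k) :
    (Fin N → G) × ZMod k :=
  (Pi.single p.1 (s p.2), ((p.2 : ℕ) : ZMod k))

theorem seq_bound {G : Type} [AddCommGroup G] [Finite G] {k : ℕ} (hk : 1 ≤ k) (s : Fin k → G)
    (hs : ∀ A B C : Finset (Fin k), Disjoint A B → Disjoint A C → Disjoint B C →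
      ∑ i ∈ A, s i = ∑ i ∈ B, s i → ∑ i ∈ B, s i = ∑ i ∈ C, s i → A = ∅ ∧ B = ∅ ∧ C = ∅)
    (N : ℕ) :
    ∃ S : Finset ((Fin N → G) × ZMod k), ¬ HasTriple S ∧ S.card = N * k := by
  classical
  have : NeZero k := ⟨by omega⟩
  have hs0 : ∀ i, s i ≠ 0 := by
    intro i hi
    have h := hs {i} ∅ ∅ (by simp) (by simp) (by simp)
      (by rw [Finset.sum_singleton, Finset.sum_empty, hi]) rfl
    exact Finset.singleton_ne_empty i h.1
  have hinj : Function.Injective (seqElt (N := N) s) := by
    rintro ⟨j, i⟩ ⟨j', i'⟩ h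
    have h1 : (Pi.single j (s i) : Fin N → G) = Pi.single j' (s i') := congrArg Prod.fst h
    have h2 : ((i : ℕ) : ZMod k) = ((i' : ℕ) : ZMod k) := congrArg Prod.snd h
    have h3 : i = i' := by
      apply Fin.ext
      have h4 := (ZMod.natCast_eq_natCast_iff' _ _ _).1 h2
      rwa [Nat.mod_eq_of_lt i.isLt, Nat.mod_eq_of_lt i'.isLt] at h4
    subst h3
    have h5 : j = j' := by
      by_contra hne
      have h6 := congrFun h1 j
      rw [Pi.single_eq_same, Pi.single_eq_of_ne hne] at h6
      exact hs0 i h6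
    rw [h5]
  refine ⟨Finset.univ.image (seqElt (N := N) s), ?_, ?_⟩
  · rintro ⟨A, B, C, hA, hB, hC, hAB, hAC, hBC, hne, h1, h2⟩
    -- the trace on the j-th copy
    set tr : Finset ((Fin N → G) × ZMod k) → Fin N → Finset (Fin k) :=
      fun X j => Finset.univ.filter (fun i => seqElt (N := N) s (j, i) ∈ X) with htr
    have hsum : ∀ X : Finset ((Fin N → G) × ZMod k), X ⊆ Finset.univ.image (seqElt (N := N) s) →
        ∀ j, (∑ x ∈ X, x).1 j = ∑ i ∈ tr X j, s i := by
      intro X hX j
      have hXi : X = (Finset.univ.filter (fun p => seqElt (N := N) s p ∈ X)).image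
          (seqElt (N := N) s) := by
        ext x
        rw [Finset.mem_image]
        constructor
        · intro hx
          obtain ⟨p, _, rfl⟩ := Finset.mem_image.1 (hX hx)
          exact ⟨p, by rw [Finset.mem_filter]; exact ⟨Finset.mem_univ _, hx⟩, rfl⟩
        · rintro ⟨p, hp, rfl⟩
          rw [Finset.mem_filter] at hp
          exact hp.2
      have e1 : ∑ x ∈ X, x = ∑ p ∈ Finset.univ.filter (fun p => seqElt (N := N) s p ∈ X),
          seqElt (N := N) s p := by
        conv_lhs => rw [hXi]
        rw [Finset.sum_image (fun x _ y _ h => hinj h)]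
      rw [e1, Prod.fst_sum, Finset.sum_apply, Finset.sum_filter, Fintype.sum_prod_type,
        Finset.sum_eq_single j]
      · rw [htr]
        simp only
        rw [Finset.sum_filter]
        apply Finset.sum_congr rfl
        intro i _
        show (if seqElt (N := N) s (j, i) ∈ X then (Pi.single j (s i) : Fin N → G) j else 0) = _
        rw [Pi.single_eq_same]
      · intro j' _ hj'
        apply Finset.sum_eq_zero
        intro i _
        show (if seqElt (N := N) s (j', i) ∈ X then (Pi.single j' (s i) : Fin N → G) j else 0) = 0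
        rw [Pi.single_eq_of_ne (Ne.symm hj')]
        split_ifs <;> rfl
      · intro h
        exact absurd (Finset.mem_univ j) h
    have hdisj : ∀ X Y : Finset ((Fin N → G) × ZMod k), Disjoint X Y → ∀ j,
        Disjoint (tr X j) (tr Y j) := by
      intro X Y hXY j
      rw [Finset.disjoint_left] at hXY ⊢
      intro i hi hi'
      rw [htr] at hi hi'
      simp only [Finset.mem_filter] at hi hi'
      exact hXY hi.2 hi'.2
    have hemp : ∀ j, tr A j = ∅ ∧ tr B j = ∅ ∧ tr C j = ∅ := by
      intro j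
      apply hs _ _ _ (hdisj A B hAB j) (hdisj A C hAC j) (hdisj B C hBC j)
      · rw [← hsum A hA j, ← hsum B hB j, h1]
      · rw [← hsum B hB j, ← hsum C hC j, h2]
    have hno : ∀ X : Finset ((Fin N → G) × ZMod k), X ⊆ Finset.univ.image (seqElt (N := N) s) →
        (∀ j, tr X j = ∅) → ¬ X.Nonempty := by
      rintro X hX h0 ⟨x, hx⟩
      obtain ⟨⟨j, i⟩, _, rfl⟩ := Finset.mem_image.1 (hX hx)
      have : i ∈ tr X j := by
        rw [htr]
        simp only [Finset.mem_filter]
        exact ⟨Finset.mem_univ _, hx⟩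
      rw [h0 j] at this
      exact Finset.notMem_empty i this
    rcases hne with h | h | h
    · exact hno A hA (fun j => (hemp j).1) h
    · exact hno B hB (fun j => (hemp j).2.1) h
    · exact hno C hC (fun j => (hemp j).2.2) h
  · rw [Finset.card_image_of_injective _ hinj, Finset.card_univ, Fintype.card_prod,
      Fintype.card_fin, Fintype.card_fin]

theorem seq_le_lam {G : Type} [AddCommGroup G] [Finite G] {k : ℕ} (s : Fin k → G)
    (hs : ∀ A B C : Finset (Fin k), Disjoint A B → Disjoint A C → Disjoint B C →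
      ∑ i ∈ A, s i = ∑ i ∈ B, s i → ∑ i ∈ B, s i = ∑ i ∈ C, s i → A = ∅ ∧ B = ∅ ∧ C = ∅) :
    (k : ℝ) ≤ sSup Xs * Real.log (Nat.card G) := by
  have hl := lam_pos
  have hG : 0 ≤ Real.log (Nat.card G : ℝ) := Real.log_natCast_nonneg _
  rcases Nat.eq_zero_or_pos k with h0 | hk
  · rw [h0, Nat.cast_zero]
    positivity
  have : NeZero k := ⟨by omega⟩
  have key : ∀ N : ℕ, 1 ≤ N → (k : ℝ) ≤ sSup Xs * Real.log (Nat.card G) +
      sSup Xs * Real.log k / N := by
    intro N hN
    have hNr : (0 : ℝ) < N := by exact_mod_cast hN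
    obtain ⟨S, hS, hSc⟩ := seq_bound hk s hs N
    have h1 := lt_f S hS
    have h2 := f_le_lam ((Fin N → G) × ZMod k)
    rw [Nat.card_prod, Nat.card_zmod, Nat.card_pi, Finset.prod_const, Finset.card_univ,
      Fintype.card_fin] at h2
    have hGpos : (0 : ℝ) < Nat.card G := by exact_mod_cast Nat.card_pos
    have hkpos : (0 : ℝ) < k := by exact_mod_cast hk
    rw [Nat.cast_mul, Nat.cast_pow, Real.log_mul (by positivity) hkpos.ne', Real.log_pow] at h2
    have h3 : ((S.card + 1 : ℕ) : ℝ) ≤ (f ((Fin N → G) × ZMod k) : ℝ) := by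
      exact_mod_cast h1
    rw [hSc] at h3
    push_cast at h3
    have h4 : (N : ℝ) * k ≤ sSup Xs * (N * Real.log (Nat.card G) + Real.log k) := by linarith
    have h5 : (k : ℝ) ≤ (sSup Xs * (N * Real.log (Nat.card G) + Real.log k)) / N := by
      rw [le_div_iff₀ hNr]
      linarith
    refine h5.trans (le_of_eq ?_)
    field_simp
  have hlim : Tendsto (fun N : ℕ => sSup Xs * Real.log (Nat.card G) +
      sSup Xs * Real.log k / N) atTop (𝓝 (sSup Xs * Real.log (Nat.card G) + 0)) :=
    (tendsto_const_div_atTop_nhds_zero_nat _).const_add _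
  rw [add_zero] at hlim
  exact ge_of_tendsto hlim (by
    filter_upwards [eventually_ge_atTop 1] with N hN
    exact key N hN)

end Pool.Agent.Lib.RHO6
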